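import Pool.Agent.Helper95.PV.Final

/-! Project AP (MP_9ee088_an): all large parameters for random potentials. Definitions of the proof. Proof in words: README.md in this folder. -/

set_option autoImplicit false
open MeasureTheory Real Set
open scoped ENNReal

namespace Pool.Agent.Helper72.AP

open Pool.Agent.Helper95.PV
open Pool.Agent.Helper18.UC (T2 rep toT nn)
open Pool.Agent.Helper18.FD (NN rr pr cl uu lm Bump k1 k2)

/-! ### laws of the noise -/

/-- resampling the coordinate `i` preserves the law -/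
def Rs (L : Measure Om) (i : Ix) : Prop :=
  MeasurePreserving (fun q : Om × ℝ => Function.update q.1 i q.2) (L.prod uu) L

/-- new noise at the levels `lo, lo + 1, ..` -/
def mx (lo : ℕ) (ω η : Om) : Om := fun i => if lo ≤ i.1 then η i else ω i

/-- the law of the noise with the levels below `lo` frozen -/
noncomputable def Lc (lo : ℕ) (ω : Om) : Measure Om := PP.map (mx lo ω)

/-- the mean growth for the law `L` -/
noncomputable def EmL (L : Measure Om) (d : Dat) (m : ℕ) : ℝ :=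
  ∫ p, Real.log (nn (Mm d m p)) ∂(L.prod (volume : Measure T2))

/-! ### data -/

/-- first and second derivative of a background -/
abbrev Kk := (ℝ → ℝ) × (ℝ → ℝ)

/-- the datum with parameter `a`, coupling `κ` and background `g` -/
noncomputable def dt (s Rt : ℝ) (χ : ℝ → ℝ) (a κ : ℝ) (g : Kk) : Dat := ⟨a, κ, s, Rt, χ, g.1, g.2⟩

/-- nondegeneracy for a fixed noise -/
def Nw (d : Dat) (ω : Om) (B b : ℝ) : Prop := ∀ δ : ℝ, 0 < δ →
  volume {x : ℝ | x ∈ Ico (0 : ℝ) 1 ∧ |d.p2 ω x| < δ} ≤ ENNReal.ofReal (B * δ ^ b)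

/-- entropy of a set of backgrounds -/
def Ent2 (R : ℝ) (k : ℕ) (𝒢 : Set Kk) : Prop := ∀ n : ℕ, 1 ≤ n → ∃ S : Finset Kk,
  (↑S : Set Kk) ⊆ 𝒢 ∧ (S.card : ℝ) ≤ Real.exp (R * (n : ℝ) ^ k) ∧
  ∀ g ∈ 𝒢, ∃ f ∈ S, ∀ x, |g.1 x - f.1 x| ≤ Real.exp (-n) ∧ |g.2 x - f.2 x| ≤ Real.exp (-n)

end Pool.Agent.Helper72.AP
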