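import Pool.Agent.Helper72.AP.Law

/-! Nets of parameters, couplings and backgrounds; numerical lemmas. -/

set_option autoImplicit false
open MeasureTheory Real Set Filter Topology
open scoped ENNReal

namespace Pool.Agent.Helper72.AP

open Pool.Agent.Helper95.PV
open Pool.Agent.Helper18.UC (T2 rep toT nn)
open Pool.Agent.Helper18.FD (NN rr pr cl uu lm Bump k1 k2)

theorem grid {u v ε : ℝ} (huv : u ≤ v) (hε : 0 < ε) : ∃ S : Finset ℝ, (↑S : Set ℝ) ⊆ Icc u v ∧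
    (S.card : ℝ) ≤ (v - u) / ε + 1 ∧ ∀ x ∈ Icc u v, ∃ y ∈ S, |x - y| ≤ ε := by
  classical
  obtain ⟨m, hm⟩ : ∃ m, m = ⌊(v - u) / ε⌋₊ := ⟨_, rfl⟩
  have h0 : 0 ≤ (v - u) / ε := div_nonneg (by linarith) hε.le
  have hm1 : (m : ℝ) ≤ (v - u) / ε := by rw [hm]; exact Nat.floor_le h0
  refine ⟨(Finset.range (m + 1)).image fun j : ℕ => u + j * ε, ?_, ?_, ?_⟩
  · intro x hx
    rw [Finset.mem_coe, Finset.mem_image] at hx
    obtain ⟨j, hj, rfl⟩ := hx
    rw [Finset.mem_range] at hj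
    have hj1 : (j : ℝ) ≤ m := by exact_mod_cast (by omega : j ≤ m)
    have hj2 : (j : ℝ) * ε ≤ v - u := by
      rw [← le_div_iff₀ hε]
      exact hj1.trans hm1
    have hj3 : 0 ≤ (j : ℝ) * ε := by positivity
    exact ⟨by linarith, by linarith⟩
  · have h1 : ((Finset.range (m + 1)).image fun j : ℕ => u + j * ε).card ≤ m + 1 := by
      refine Finset.card_image_le.trans ?_
      rw [Finset.card_range]
    have h2 : (((Finset.range (m + 1)).image fun j : ℕ => u + j * ε).card : ℝ) ≤ m + 1 := by exact_mod_cast h1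
    linarith
  · intro x hx
    obtain ⟨j, hj⟩ : ∃ j, j = ⌊(x - u) / ε⌋₊ := ⟨_, rfl⟩
    have h1 : 0 ≤ (x - u) / ε := div_nonneg (by linarith [hx.1]) hε.le
    have h2 : (j : ℝ) ≤ (x - u) / ε := by rw [hj]; exact Nat.floor_le h1
    have h3 : (x - u) / ε < j + 1 := by rw [hj]; exact Nat.lt_floor_add_one _
    have h4 : j ≤ m := by
      rw [hj, hm]
      exact Nat.floor_le_floor (div_le_div_of_nonneg_right (by linarith [hx.2]) hε.le)
    refine ⟨u + j * ε, Finset.mem_image.2 ⟨j, Finset.mem_range.2 (by omega), rfl⟩, ?_⟩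
    rw [le_div_iff₀ hε] at h2
    rw [div_lt_iff₀ hε] at h3
    rw [abs_le]
    constructor <;> nlinarith

theorem net {R : ℝ} {k : ℕ} {𝒢 : Set Kk} (hE : Ent2 R k 𝒢) {A₁ Y κ₀ : ℝ} (hA : 0 ≤ A₁) (hY : A₁ ≤ Y)
    (hκ0 : 0 ≤ κ₀) (hκ : κ₀ ≤ 1) {N : ℕ} (hN : 1 ≤ N) :
    ∃ T : Finset (ℝ × ℝ × Kk), (∀ τ ∈ T, A₁ ≤ |τ.1| ∧ |τ.1| ≤ Y ∧ κ₀ ≤ τ.2.1 ∧ τ.2.1 ≤ 1 ∧ τ.2.2 ∈ 𝒢) ∧
      (T.card : ℝ) ≤ (2 * (Y * Real.exp N + 1)) * ((Real.exp N + 1) * Real.exp (R * (N : ℝ) ^ k)) ∧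
      ∀ (a κ : ℝ) (g : Kk), A₁ ≤ |a| → |a| ≤ Y → κ₀ ≤ κ → κ ≤ 1 → g ∈ 𝒢 → ∃ τ ∈ T,
        |a - τ.1| ≤ Real.exp (-N) ∧ |κ - τ.2.1| ≤ Real.exp (-N) ∧
        ∀ x, |g.1 x - τ.2.2.1 x| ≤ Real.exp (-N) ∧ |g.2 x - τ.2.2.2 x| ≤ Real.exp (-N) := by
  classical
  have he : 0 < Real.exp (-(N : ℝ)) := Real.exp_pos _
  have he' : ∀ x : ℝ, x / Real.exp (-(N : ℝ)) = x * Real.exp N := by
    intro x
    rw [Real.exp_neg, div_inv_eq_mul]
  obtain ⟨S₁, h11, h12, h13⟩ := grid hY he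
  obtain ⟨S₂, h21, h22, h23⟩ := grid hκ he
  obtain ⟨S₃, h31, h32, h33⟩ := hE N hN
  rw [he'] at h12 h22
  refine ⟨(S₁ ∪ S₁.image fun x => -x) ×ˢ (S₂ ×ˢ S₃), ?_, ?_, ?_⟩
  · rintro ⟨a, κ, g⟩ hτ
    rw [Finset.mem_product, Finset.mem_product, Finset.mem_union, Finset.mem_image] at hτ
    obtain ⟨h1, h2, h3⟩ := hτ
    have k2 := h21 h2
    have k1 : A₁ ≤ |a| ∧ |a| ≤ Y := by
      rcases h1 with h | ⟨b, h, hb⟩
      · have := h11 h
        have h4 : |a| = a := abs_of_nonneg (hA.trans this.1)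
        show A₁ ≤ |a| ∧ |a| ≤ Y
        rw [h4]
        exact this
      · have := h11 h
        have h4 : |a| = b := by
          change -b = a at hb
          rw [← hb, abs_neg, abs_of_nonneg (hA.trans this.1)]
        show A₁ ≤ |a| ∧ |a| ≤ Y
        rw [h4]
        exact this
    exact ⟨k1.1, k1.2, k2.1, k2.2, h31 h3⟩
  · rw [Finset.card_product, Finset.card_product]
    push_cast
    have c1 : ((S₁ ∪ S₁.image fun x => -x).card : ℝ) ≤ 2 * (Y * Real.exp N + 1) := by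
      have h1 : (S₁ ∪ S₁.image fun x => -x).card ≤ S₁.card + S₁.card :=
        (Finset.card_union_le _ _).trans (Nat.add_le_add_left Finset.card_image_le _)
      have h2 : ((S₁ ∪ S₁.image fun x => -x).card : ℝ) ≤ S₁.card + S₁.card := by exact_mod_cast h1
      have h3 : (Y - A₁) * Real.exp N ≤ Y * Real.exp N :=
        mul_le_mul_of_nonneg_right (by linarith) (Real.exp_pos _).le
      linarith
    have c2 : (S₂.card : ℝ) ≤ Real.exp N + 1 := by
      have h3 : (1 - κ₀) * Real.exp N ≤ 1 * Real.exp N :=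
        mul_le_mul_of_nonneg_right (by linarith) (Real.exp_pos _).le
      linarith
    refine mul_le_mul c1 (mul_le_mul c2 h32 (Nat.cast_nonneg _) (by positivity)) (by positivity) ?_
    have : 0 ≤ Y := hA.trans hY
    positivity
  · intro a κ g ha1 ha2 hk1 hk2 hg
    obtain ⟨f, hf1, hf2⟩ := h33 g hg
    obtain ⟨κ', hk'1, hk'2⟩ := h23 κ ⟨hk1, hk2⟩
    obtain ⟨b, hb1, hb2⟩ := h13 |a| ⟨ha1, ha2⟩
    rcases le_total 0 a with h | h
    · rw [abs_of_nonneg h] at hb2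
      exact ⟨(b, κ', f), by simp [hb1, hk'1, hf1], hb2, hk'2, hf2⟩
    · rw [abs_of_nonpos h] at hb2
      refine ⟨(-b, κ', f), by simp [hb1, hk'1, hf1], ?_, hk'2, hf2⟩
      show |a - -b| ≤ _
      have : a - -b = -(-a - b) := by ring
      rw [this, abs_neg]
      exact hb2

theorem err_small {γ Q s : ℝ} (hγ : 1 ≤ γ) (hQ : 1 ≤ Q) (hs : 0 < s) (hs1 : s < 1) {n : ℕ} (hn : 2 * Q + 4 ≤ n)
    (hn2 : (10 + 6 * γ) / s ≤ n) :
    2 * (n : ℝ) ^ γ * Q * Real.exp (-(n : ℝ) ^ 3) ≤ 1 ∧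
    4 * (n : ℝ) * (1 + (n : ℝ) ^ γ * Q) * ((n : ℝ) ^ γ * Q + 4) ^ (4 * n) *
      (2 * (n : ℝ) ^ γ * Q * Real.exp (-(n : ℝ) ^ 3)) ^ s ≤ 1 / 4 := by
  obtain ⟨x, hx⟩ : ∃ x : ℝ, x = n := ⟨_, rfl⟩
  rw [← hx] at hn hn2 ⊢
  have hx6 : 6 ≤ x := by linarith
  have hx0 : 0 < x := by linarith
  have hx1 : 1 ≤ x := by linarith
  have hxs : 10 + 6 * γ ≤ s * x := by
    rw [div_le_iff₀ hs] at hn2
    linarith
  have hγx : 10 + 6 * γ ≤ x := by nlinarith
  have hlog : Real.log x ≤ x := by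
    have := Real.log_le_sub_one_of_pos hx0
    linarith
  have hlog0 : 0 ≤ Real.log x := Real.log_nonneg hx1
  have hxγ : x ^ γ = Real.exp (γ * Real.log x) := by rw [Real.rpow_def_of_pos hx0, mul_comm]
  have hxγ1 : 1 ≤ x ^ γ := Real.one_le_rpow hx1 (by linarith)
  have hxx : x = Real.exp (Real.log x) := (Real.exp_log hx0).symm
  have b1 : x ^ γ * Q + 4 ≤ Real.exp ((γ + 1) * Real.log x) := by
    have : Real.exp ((γ + 1) * Real.log x) = x ^ γ * x := by
      rw [add_mul, one_mul, Real.exp_add, ← hxγ, Real.exp_log hx0]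
    rw [this]
    nlinarith
  have b2 : 1 + x ^ γ * Q ≤ Real.exp ((γ + 1) * Real.log x) := by linarith
  have b3 : 2 * x ^ γ * Q ≤ Real.exp ((γ + 1) * Real.log x) := by
    have : Real.exp ((γ + 1) * Real.log x) = x ^ γ * x := by
      rw [add_mul, one_mul, Real.exp_add, ← hxγ, Real.exp_log hx0]
    rw [this]
    nlinarith
  have b4 : 4 * x ≤ Real.exp (2 * Real.log x) := by
    have : Real.exp (2 * Real.log x) = x * x := by
      rw [two_mul, Real.exp_add, Real.exp_log hx0]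
    rw [this]
    nlinarith
  have b5 : 2 * x ^ γ * Q * Real.exp (-x ^ 3) ≤ Real.exp ((γ + 1) * Real.log x - x ^ 3) := by
    rw [sub_eq_add_neg, Real.exp_add]
    exact mul_le_mul_of_nonneg_right b3 (Real.exp_pos _).le
  have hx3 : x ^ 3 = x * (x * x) := by ring
  have hxx' : x ≤ x * x := by nlinarith
  constructor
  · refine b5.trans ?_
    rw [Real.exp_le_one_iff]
    have h1 : (γ + 1) * Real.log x ≤ (γ + 1) * x := mul_le_mul_of_nonneg_left hlog (by linarith)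
    have h2 : (γ + 1) * x ≤ x * (x * x) := by nlinarith
    rw [hx3]
    linarith
  · have c1 : (x ^ γ * Q + 4) ^ (4 * n) ≤ Real.exp (4 * x * ((γ + 1) * Real.log x)) := by
      have h0 : 0 ≤ x ^ γ * Q + 4 := by positivity
      refine (pow_le_pow_left₀ h0 b1 (4 * n)).trans (le_of_eq ?_)
      rw [← Real.exp_nat_mul]
      congr 1
      push_cast
      rw [hx]
    have c2 : (2 * x ^ γ * Q * Real.exp (-x ^ 3)) ^ s ≤ Real.exp (s * ((γ + 1) * Real.log x - x ^ 3)) := by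
      refine (Real.rpow_le_rpow (by positivity) b5 hs.le).trans (le_of_eq ?_)
      rw [← Real.exp_mul, mul_comm]
    have c3 : 4 * x * (1 + x ^ γ * Q) * (x ^ γ * Q + 4) ^ (4 * n) *
        (2 * x ^ γ * Q * Real.exp (-x ^ 3)) ^ s ≤
        Real.exp (2 * Real.log x) * Real.exp ((γ + 1) * Real.log x) * Real.exp (4 * x * ((γ + 1) * Real.log x)) *
        Real.exp (s * ((γ + 1) * Real.log x - x ^ 3)) := by
      gcongr
    refine c3.trans ?_
    rw [← Real.exp_add, ← Real.exp_add, ← Real.exp_add]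
    have h14 : Real.exp (-2) ≤ 1 / 4 := by
      rw [Real.exp_neg, ← one_div, one_div_le_one_div (Real.exp_pos _) (by norm_num)]
      have h1 : (2 : ℝ) ≤ Real.exp 1 := by
        have := Real.add_one_le_exp (1 : ℝ)
        linarith
      have h2 : Real.exp 2 = Real.exp 1 * Real.exp 1 := by rw [← Real.exp_add]; norm_num
      rw [h2]
      nlinarith
    refine le_trans (Real.exp_le_exp.2 ?_) h14
    have g0 : 0 ≤ γ + 1 := by linarith
    have g1 : (γ + 1) * Real.log x ≤ (γ + 1) * x := mul_le_mul_of_nonneg_left hlog g0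
    have g2 : 4 * x * ((γ + 1) * Real.log x) ≤ 4 * x * ((γ + 1) * x) := mul_le_mul_of_nonneg_left g1 (by linarith)
    have g3 : s * ((γ + 1) * Real.log x - x ^ 3) ≤ (γ + 1) * x - s * x ^ 3 := by
      have h1 : 0 ≤ (γ + 1) * Real.log x := mul_nonneg g0 hlog0
      have h2 : s * ((γ + 1) * Real.log x) ≤ (γ + 1) * Real.log x := by nlinarith
      have h3 : s * ((γ + 1) * Real.log x - x ^ 3) = s * ((γ + 1) * Real.log x) - s * x ^ 3 := by ring
      rw [h3]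
      linarith
    have g4 : (10 + 6 * γ) * (x * x) ≤ s * x ^ 3 := by
      have : s * x ^ 3 = (s * x) * (x * x) := by ring
      rw [this]
      exact mul_le_mul_of_nonneg_right hxs (by positivity)
    have g5 : γ * x ≤ γ * (x * x) := mul_le_mul_of_nonneg_left hxx' (by linarith)
    nlinarith

end Pool.Agent.Helper72.AP
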