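import Pool.Agent.Helper72.APU.Fin
import Pool.Agent.Helper57.BG.Asm
import Pool.Agent.Helper56.AP.Stmts

/-!
# A', block UP: the structured moduli at products `m l + k`, `l` prime
-/

open Filter Topology Finset

set_option autoImplicit false

namespace Pool.Agent.Helper72.APU

open Pool.Agent.AP

/-- logarithms against powers -/
lemma ev_log (C : ℝ) {n : ℕ} (hn : 0 < n) {ε : ℝ} (hε : 0 < ε) :
    ∀ᶠ T : ℝ in atTop, C * (1 + Real.log T) ^ n ≤ T ^ ε := by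
  have h1 : Tendsto (fun T : ℝ => (1 + Real.log T) ^ n / T ^ ε) atTop (𝓝 0) := by
    have h2 : (fun T : ℝ => (1 + Real.log T) ^ n) =o[atTop] fun T : ℝ => T ^ ε := by
      have h3 : (fun T : ℝ => 1 + Real.log T) =o[atTop] fun T : ℝ => T ^ (ε / n) := by
        have hn' : 0 < ε / n := div_pos hε (by exact_mod_cast hn)
        refine Asymptotics.IsLittleO.add ?_ (isLittleO_log_rpow_atTop hn')
        exact Asymptotics.isLittleO_const_left.2 (Or.inr (tendsto_norm_atTop_atTop.comp (tendsto_rpow_atTop hn')))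
      refine (h3.pow hn).congr' EventuallyEq.rfl ?_
      filter_upwards [eventually_ge_atTop 0] with T hT
      rw [← Real.rpow_natCast, ← Real.rpow_mul hT]
      congr 1
      field_simp
    exact h2.tendsto_div_nhds_zero
  have h2 := (h1.const_mul C).eventually (eventually_le_nhds (show C * 0 < 1 by norm_num))
  filter_upwards [h2, eventually_gt_atTop 0] with T hT h0
  have h3 : 0 < T ^ ε := Real.rpow_pos_of_pos h0 _
  have : C * (1 + Real.log T) ^ n = C * ((1 + Real.log T) ^ n / T ^ ε) * T ^ ε := by field_simp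
  rw [this]
  nlinarith

lemma big_ev : ∀ᶠ T : ℝ in atTop, Big T := by
  obtain ⟨T1, -, hP⟩ := Pool.Agent.Helper57.BG.tIIP
  obtain ⟨T2, -, hS⟩ := Pool.Agent.Helper57.BG.tIIS
  filter_upwards [eventually_gt_atTop 1, ev_log (2 ^ 40) (n := 5) (by norm_num) (ε := 1 / 100000000) (by norm_num), PU_mem,
    UU_bd (ε := 1 / 100000000) (by norm_num), Pool.Agent.Helper64.Bt.B1 PU_mem (a := 4 / 10000) (by norm_num) (by norm_num),
    eventually_ge_atTop T1, eventually_ge_atTop T2] with T h1 h2 h3 h4 h5 h6 h7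
  exact ⟨h1, h2, h3, h4, h5, hP T h6, hS T h7⟩

end Pool.Agent.Helper72.APU

namespace Pool.Agent.AP

theorem UP : ∀ᶠ T : ℝ in atTop, ∀ J : List (Finset ℕ), J.Sublist (IF T) → J ≠ [] → ∀ (k : ℤ) (M L M₀ L₀ : ℕ) (α β : ℕ → ℝ), k ≠ 0 →
    |(k : ℝ)| ≤ T ^ (1 / 1000000 : ℝ) → M₀ ≤ M → L₀ ≤ L → (M : ℝ) * L ≤ T ^ (1 + 1 / 1000000 : ℝ) → (∀ m, |α m| ≤ 1) → (∀ l, |β l| ≤ 1) →
    (∀ l, β l ≠ 0 → l.Prime ∧ T ^ (1 / 2000 : ℝ) ≤ l ∧ (l : ℝ) ≤ T ^ (405 / 1000 : ℝ)) →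
    |∑ m ∈ Finset.Ioc M₀ M, ∑ l ∈ Finset.Ioc L₀ L, α m * β l * UU J (m * l + k)| ≤ T ^ (1 - 9 / 10000000 : ℝ) := by
  filter_upwards [Pool.Agent.Helper72.APU.big_ev] with T hB J hJ _ k M L M₀ L₀ α β hk hkT hM hL hML hα hβ hβs
  exact Pool.Agent.Helper72.APU.UP_at hB J hJ k M L M₀ L₀ α β hk hkT hM hL hML hα hβ hβs

end Pool.Agent.AP

/-- the statement of the block -/
theorem Pool.Agent.Helper72.APU.stmt_UP : Pool.Agent.AP.Stmt_UP := Pool.Agent.AP.UP
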