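import Pool.Agent.Helper72.AP.Defs

/-! Block AP-B5: continuity of `un` in the datum and the noise. -/

set_option autoImplicit false
open MeasureTheory Real Set Filter Topology
open scoped ENNReal

namespace Pool.Agent.Helper72.AP

open Pool.Agent.Helper95.PV
open Pool.Agent.Helper18.UC (T2 rep toT nn nn_nonneg nn_mul nn_one nn_add_le nn_sub_le)
open Pool.Agent.Helper18.FD (NN rr pr cl uu lm Bump k1 k2)

/-- the orbit on the torus is the projection of the orbit in the plane -/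
theorem iter_toT {d : Dat} (hd : d.Ok) (ω : Om) (z : T2) (n : ℕ) :
    (sk d)^[n] (ω, z) = (ω, toT ((Fl d ω)^[n] (rep z))) := by
  rw [sk_iter]
  refine Prod.ext rfl ?_
  show (Tw d ω)^[n] z = _
  induction n with
  | zero => exact (Pool.Agent.Helper18.UC.toT_rep z).symm
  | succ n ih =>
    rw [Function.iterate_succ_apply', ih, Function.iterate_succ_apply']
    exact Tw_toT hd ω _

theorem vv_iter {d : Dat} (hd : d.Ok) (ω : Om) (z : T2) (n : ℕ) :
    vv d ((sk d)^[n] (ω, z)) = 2 + d.a * d.p2 ω ((Fl d ω)^[n] (rep z)).1 := by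
  rw [iter_toT hd]
  exact va_coe hd ω _

/-- two orbits in the plane with the same initial condition -/
theorem orb_cont {d d' : Dat} (hd : d.Ok) {D ε : ℝ} (hD : 1 ≤ D) (hε : 0 ≤ ε) (ω ω' : Om)
    (b2 : ∀ x, |d.a * d.p2 ω x| ≤ D) (e1 : ∀ x, |d.a * d.p1 ω x - d'.a * d'.p1 ω' x| ≤ ε) (q : ℝ × ℝ) (n : ℕ) :
    |((Fl d ω)^[n] q).1 - ((Fl d' ω')^[n] q).1| ≤ ε * (D + 3) ^ n ∧
    |((Fl d ω)^[n] q).2 - ((Fl d' ω')^[n] q).2| ≤ ε * (D + 3) ^ n := by
  have hder : ∀ x, HasDerivAt (fun x => d.a * d.p1 ω x) (d.a * d.p2 ω x) x := by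
    intro x
    obtain ⟨C, -, hC⟩ := h_ok hd.hχ hd.hs hd.hs1
    obtain ⟨-, -, -, -, -, -, -, -, -, -, q8, -⟩ := hC ω
    exact ((hd.der x).add ((q8 x).const_mul d.κ)).const_mul d.a
  have hlip : ∀ x y, |d.a * d.p1 ω x - d.a * d.p1 ω y| ≤ D * |x - y| := by
    intro x y
    have h := Convex.norm_image_sub_le_of_norm_hasDerivWithin_le (f := fun x => d.a * d.p1 ω x)
      (f' := fun x => d.a * d.p2 ω x) (s := univ) (x := y) (y := x) (C := D)
      (fun x _ => (hder x).hasDerivWithinAt) (fun x _ => b2 x) convex_univ (mem_univ _) (mem_univ _)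
    exact h
  have key : ∀ m : ℕ, |((Fl d ω)^[m] q).1 - ((Fl d' ω')^[m] q).1| ≤ ε * ((D + 3) ^ m - 1) ∧
      |((Fl d ω)^[m] q).2 - ((Fl d' ω')^[m] q).2| ≤ ε * ((D + 3) ^ m - 1) := by
    intro m
    induction m with
    | zero => simp
    | succ m ih =>
      obtain ⟨i1, i2⟩ := ih
      rw [Function.iterate_succ_apply', Function.iterate_succ_apply']
      obtain ⟨P, hP⟩ : ∃ P, P = (Fl d ω)^[m] q := ⟨_, rfl⟩
      obtain ⟨P', hP'⟩ : ∃ P', P' = (Fl d' ω')^[m] q := ⟨_, rfl⟩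
      rw [← hP, ← hP'] at i1 i2 ⊢
      have hp : 1 ≤ (D + 3) ^ m := one_le_pow₀ (by linarith)
      have hx0 : 0 ≤ ε * ((D + 3) ^ m - 1) := mul_nonneg hε (by linarith)
      have hstep : (D + 3) * (ε * ((D + 3) ^ m - 1)) + ε ≤ ε * ((D + 3) ^ (m + 1) - 1) := by
        rw [pow_succ]
        nlinarith
      constructor
      · show |(2 * P.1 - P.2 + d.a * d.p1 ω P.1) - (2 * P'.1 - P'.2 + d'.a * d'.p1 ω' P'.1)| ≤ _
        have e : (2 * P.1 - P.2 + d.a * d.p1 ω P.1) - (2 * P'.1 - P'.2 + d'.a * d'.p1 ω' P'.1) =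
            2 * (P.1 - P'.1) - (P.2 - P'.2) + (d.a * d.p1 ω P.1 - d.a * d.p1 ω P'.1) +
            (d.a * d.p1 ω P'.1 - d'.a * d'.p1 ω' P'.1) := by ring
        rw [e]
        have h1 := hlip P.1 P'.1
        have h2 := e1 P'.1
        have h3 := abs_add_le (2 * (P.1 - P'.1) - (P.2 - P'.2) + (d.a * d.p1 ω P.1 - d.a * d.p1 ω P'.1))
          (d.a * d.p1 ω P'.1 - d'.a * d'.p1 ω' P'.1)
        have h4 := abs_add_le (2 * (P.1 - P'.1) - (P.2 - P'.2)) (d.a * d.p1 ω P.1 - d.a * d.p1 ω P'.1)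
        have h5 := abs_sub (2 * (P.1 - P'.1)) (P.2 - P'.2)
        have h6 : |2 * (P.1 - P'.1)| = 2 * |P.1 - P'.1| := by rw [abs_mul, abs_two]
        have h7 : D * |P.1 - P'.1| ≤ D * (ε * ((D + 3) ^ m - 1)) := mul_le_mul_of_nonneg_left i1 (by linarith)
        nlinarith
      · show |P.1 - P'.1| ≤ _
        nlinarith
  obtain ⟨k1, k2⟩ := key n
  have : ε * ((D + 3) ^ n - 1) ≤ ε * (D + 3) ^ n := mul_le_mul_of_nonneg_left (by linarith) hε
  exact ⟨k1.trans this, k2.trans this⟩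

/-- continuity of the matrices -/
theorem Mm_cont {d d' : Dat} {D E : ℝ} (hD : 1 ≤ D) (hE : 0 ≤ E) (p p' : Pt) (n : ℕ)
    (b : ∀ j < n, |vv d ((sk d)^[j] p)| ≤ D + 2) (b' : ∀ j < n, |vv d' ((sk d')^[j] p')| ≤ D + 2)
    (e : ∀ j < n, |vv d ((sk d)^[j] p) - vv d' ((sk d')^[j] p')| ≤ E * (D + 4) ^ j) :
    nn (Mm d n p) ≤ 2 * (D + 4) ^ n ∧ nn (Mm d' n p') ≤ 2 * (D + 4) ^ n ∧
    nn (Mm d n p - Mm d' n p') ≤ 2 * n * E * (D + 4) ^ (2 * n) := by
  induction n with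
  | zero =>
    rw [Mm_zero, Mm_zero, nn_one, sub_self]
    refine ⟨by simp, by simp, ?_⟩
    have : nn (0 : Matrix (Fin 2) (Fin 2) ℝ) = 0 := by unfold nn; simp
    rw [this]
    simp
  | succ n ih =>
    obtain ⟨i1, i2, i3⟩ := ih (fun j hj => b j (by omega)) (fun j hj => b' j (by omega)) (fun j hj => e j (by omega))
    obtain ⟨v, hv⟩ : ∃ v, v = vv d ((sk d)^[n] p) := ⟨_, rfl⟩
    obtain ⟨v', hv'⟩ : ∃ v', v' = vv d' ((sk d')^[n] p') := ⟨_, rfl⟩
    have bv : |v| ≤ D + 2 := by rw [hv]; exact b n (by omega)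
    have bv' : |v'| ≤ D + 2 := by rw [hv']; exact b' n (by omega)
    have ev : |v - v'| ≤ E * (D + 4) ^ n := by rw [hv, hv']; exact e n (by omega)
    have nm : nn (mv v) ≤ D + 4 := by rw [nn_mv]; linarith
    have nm' : nn (mv v') ≤ D + 4 := by rw [nn_mv]; linarith
    rw [Mm_succ, Mm_succ, ← hv, ← hv']
    obtain ⟨M, hM⟩ : ∃ M, M = Mm d n p := ⟨_, rfl⟩
    obtain ⟨M', hM'⟩ : ∃ M', M' = Mm d' n p' := ⟨_, rfl⟩
    rw [← hM, ← hM'] at i3 ⊢
    rw [← hM] at i1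
    rw [← hM'] at i2
    have hD4 : 0 ≤ D + 4 := by linarith
    have hp : (0 : ℝ) ≤ 2 * (D + 4) ^ n := by positivity
    have k1 : ∀ (w : ℝ) (B : Matrix (Fin 2) (Fin 2) ℝ), nn (mv w) ≤ D + 4 → nn B ≤ 2 * (D + 4) ^ n →
        nn (mv w * B) ≤ 2 * (D + 4) ^ (n + 1) := by
      intro w B h1 h2
      refine (nn_mul _ _).trans ((mul_le_mul h1 h2 (nn_nonneg _) hD4).trans (le_of_eq ?_))
      rw [pow_succ]; ring
    refine ⟨k1 v M nm i1, k1 v' M' nm' i2, ?_⟩
    have e1 : mv v * M - mv v' * M' = (mv v - mv v') * M + mv v' * (M - M') := by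
      rw [Matrix.sub_mul, Matrix.mul_sub]
      abel
    rw [e1]
    have e2 : nn (mv v - mv v') = |v - v'| := by
      unfold nn mv
      simp
    have h1 : nn ((mv v - mv v') * M) ≤ E * (D + 4) ^ n * (2 * (D + 4) ^ n) := by
      refine (nn_mul _ _).trans ?_
      rw [e2]
      exact mul_le_mul ev i1 (nn_nonneg _) (by positivity)
    have h2 : nn (mv v' * (M - M')) ≤ (D + 4) * (2 * n * E * (D + 4) ^ (2 * n)) :=
      (nn_mul _ _).trans (mul_le_mul nm' i3 (nn_nonneg _) hD4)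
    refine (nn_add_le _ _).trans ((add_le_add h1 h2).trans ?_)
    have hD1 : 1 ≤ D + 4 := by linarith
    have e3 : (D + 4) ^ (2 * (n + 1)) = (D + 4) ^ (2 * n) * ((D + 4) * (D + 4)) := by
      rw [show 2 * (n + 1) = 2 * n + 1 + 1 by ring, pow_succ, pow_succ]; ring
    have e4 : (D + 4) ^ n * (D + 4) ^ n = (D + 4) ^ (2 * n) := by rw [← pow_add]; congr 1; ring
    have e5 : E * (D + 4) ^ n * (2 * (D + 4) ^ n) = 2 * E * (D + 4) ^ (2 * n) := by rw [← e4]; ring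
    rw [e5, e3]
    push_cast
    obtain ⟨Y, hY⟩ : ∃ Y, Y = E * (D + 4) ^ (2 * n) := ⟨_, rfl⟩
    have hY0 : 0 ≤ Y := by rw [hY]; positivity
    have e6 : 2 * E * (D + 4) ^ (2 * n) = 2 * Y := by rw [hY]; ring
    have e7 : (D + 4) * (2 * (n : ℝ) * E * (D + 4) ^ (2 * n)) = 2 * (n * (D + 4) * Y) := by rw [hY]; ring
    have e8 : 2 * ((n : ℝ) + 1) * E * ((D + 4) ^ (2 * n) * ((D + 4) * (D + 4))) =
        2 * ((n + 1) * ((D + 4) * (D + 4)) * Y) := by rw [hY]; ring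
    rw [e6, e7, e8]
    have hn : (0 : ℝ) ≤ n := Nat.cast_nonneg n
    have f1 : (D + 4) ≤ (D + 4) * (D + 4) := by nlinarith
    have f2 : 1 ≤ (D + 4) * (D + 4) := by nlinarith
    have f3 : (n : ℝ) * (D + 4) * Y ≤ n * ((D + 4) * (D + 4)) * Y := by
      have := mul_le_mul_of_nonneg_left f1 hn
      exact mul_le_mul_of_nonneg_right this hY0
    have f4 : Y ≤ (D + 4) * (D + 4) * Y := le_mul_of_one_le_left hY0 f2
    have f5 : ((n : ℝ) + 1) * ((D + 4) * (D + 4)) * Y = n * ((D + 4) * (D + 4)) * Y + (D + 4) * (D + 4) * Y := by ring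
    rw [f5]
    linarith

theorem un_cont {d d' : Dat} (hd : d.Ok) (hd' : d'.Ok) {D H s ε : ℝ} (hs : 0 < s) (hs1 : s ≤ 1) (hD : 1 ≤ D) (hH : 0 ≤ H)
    (hε : 0 ≤ ε) (hε1 : ε ≤ 1) (ω ω' : Om) (b2 : ∀ x, |d.a * d.p2 ω x| ≤ D) (b2' : ∀ x, |d'.a * d'.p2 ω' x| ≤ D)
    (hh : ∀ x y, |d.a * d.p2 ω x - d.a * d.p2 ω y| ≤ H * |x - y| ^ s)
    (e1 : ∀ x, |d.a * d.p1 ω x - d'.a * d'.p1 ω' x| ≤ ε) (e2 : ∀ x, |d.a * d.p2 ω x - d'.a * d'.p2 ω' x| ≤ ε)
    (m : ℕ) : |un d ω m - un d' ω' m| ≤ m * (1 + H) * (D + 4) ^ (2 * m) * ε ^ s := by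
  have hεs : ε ≤ ε ^ s := by
    rcases hε.eq_or_lt with h | h
    · rw [← h, Real.zero_rpow hs.ne']
    · have := Real.rpow_le_rpow_of_exponent_ge h hε1 hs1
      rwa [Real.rpow_one] at this
  have hεs0 : 0 ≤ ε ^ s := Real.rpow_nonneg hε s
  have hD3 : 0 ≤ D + 3 := by linarith
  have hpt : ∀ z : T2, |Real.log (nn (Mm d m (ω, z))) - Real.log (nn (Mm d' m (ω', z)))| ≤
      m * (1 + H) * (D + 4) ^ (2 * m) * ε ^ s := by
    intro z
    have b : ∀ j < m, |vv d ((sk d)^[j] (ω, z))| ≤ D + 2 := by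
      intro j _
      rw [vv_iter hd]
      have := abs_add_le 2 (d.a * d.p2 ω ((Fl d ω)^[j] (rep z)).1)
      rw [abs_two] at this
      linarith [b2 ((Fl d ω)^[j] (rep z)).1]
    have b' : ∀ j < m, |vv d' ((sk d')^[j] (ω', z))| ≤ D + 2 := by
      intro j _
      rw [vv_iter hd']
      have := abs_add_le 2 (d'.a * d'.p2 ω' ((Fl d' ω')^[j] (rep z)).1)
      rw [abs_two] at this
      linarith [b2' ((Fl d' ω')^[j] (rep z)).1]
    have e : ∀ j < m, |vv d ((sk d)^[j] (ω, z)) - vv d' ((sk d')^[j] (ω', z))| ≤ ((1 + H) * ε ^ s) * (D + 4) ^ j := by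
      intro j _
      rw [vv_iter hd, vv_iter hd']
      obtain ⟨o1, -⟩ := orb_cont (d := d) (d' := d') hd hD hε ω ω' b2 e1 (rep z) j
      obtain ⟨X, hX⟩ : ∃ X, X = ((Fl d ω)^[j] (rep z)).1 := ⟨_, rfl⟩
      obtain ⟨X', hX'⟩ : ∃ X', X' = ((Fl d' ω')^[j] (rep z)).1 := ⟨_, rfl⟩
      rw [← hX, ← hX'] at o1 ⊢
      have g1 := hh X X'
      have g2 := e2 X'
      have g3 : |X - X'| ^ s ≤ ε ^ s * (D + 3) ^ j := by
        refine (Real.rpow_le_rpow (abs_nonneg _) o1 hs.le).trans ?_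
        rw [Real.mul_rpow hε (by positivity)]
        refine mul_le_mul_of_nonneg_left ?_ hεs0
        have h1 : (1 : ℝ) ≤ (D + 3) ^ j := one_le_pow₀ (by linarith)
        calc ((D + 3) ^ j) ^ s ≤ ((D + 3) ^ j) ^ (1 : ℝ) := Real.rpow_le_rpow_of_exponent_le h1 hs1
          _ = (D + 3) ^ j := Real.rpow_one _
      have g4 : (D + 3) ^ j ≤ (D + 4) ^ j := pow_le_pow_left₀ hD3 (by linarith) j
      have g5 : (1 : ℝ) ≤ (D + 4) ^ j := one_le_pow₀ (by linarith)
      have e3 : 2 + d.a * d.p2 ω X - (2 + d'.a * d'.p2 ω' X') =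
        (d.a * d.p2 ω X - d.a * d.p2 ω X') + (d.a * d.p2 ω X' - d'.a * d'.p2 ω' X') := by ring
      rw [e3]
      refine (abs_add_le _ _).trans ?_
      have g6 : H * |X - X'| ^ s ≤ H * (ε ^ s * (D + 4) ^ j) :=
        mul_le_mul_of_nonneg_left (g3.trans (mul_le_mul_of_nonneg_left g4 hεs0)) hH
      have g7 : ε ≤ ε ^ s * (D + 4) ^ j := hεs.trans (le_mul_of_one_le_right hεs0 g5)
      calc _ ≤ H * (ε ^ s * (D + 4) ^ j) + ε ^ s * (D + 4) ^ j := by linarith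
        _ = _ := by ring
    obtain ⟨-, -, c3⟩ := Mm_cont hD (E := (1 + H) * ε ^ s) (by positivity) (ω, z) (ω', z) m b b' e
    have h2 := nn_ge_two (det_Mm (d := d) m (ω, z))
    have h2' := nn_ge_two (det_Mm (d := d') m (ω', z))
    obtain ⟨M, hM⟩ : ∃ M, M = Mm d m (ω, z) := ⟨_, rfl⟩
    obtain ⟨M', hM'⟩ : ∃ M', M' = Mm d' m (ω', z) := ⟨_, rfl⟩
    rw [← hM] at h2
    rw [← hM'] at h2'
    rw [← hM, ← hM'] at c3 ⊢
    have hc : nn (M' - M) = nn (M - M') := by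
      unfold nn
      simp only [Matrix.sub_apply]
      rw [abs_sub_comm (M' 0 0), abs_sub_comm (M' 0 1), abs_sub_comm (M' 1 0), abs_sub_comm (M' 1 1)]
    have key : ∀ x y Δ : ℝ, 2 ≤ x → 2 ≤ y → x ≤ y + Δ → Real.log x - Real.log y ≤ Δ / 2 ∨ Δ < 0 := by
      intro x y Δ hx hy h
      rcases lt_or_ge Δ 0 with hΔ | hΔ
      · exact Or.inr hΔ
      · left
        have h1 : Real.log (x / y) ≤ x / y - 1 := Real.log_le_sub_one_of_pos (by positivity)
        rw [Real.log_div (by linarith) (by linarith)] at h1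
        have h3 : x / y - 1 ≤ Δ / 2 := by
          rw [div_sub_one (by linarith), div_le_div_iff₀ (by linarith) (by norm_num)]
          nlinarith
        linarith
    have hΔ0 : 0 ≤ nn (M - M') := nn_nonneg _
    have k1 : Real.log (nn M) - Real.log (nn M') ≤ nn (M - M') / 2 := by
      rcases key (nn M) (nn M') (nn (M - M')) h2 h2' (nn_sub_le _ _) with h | h
      · exact h
      · linarith
    have k2 : Real.log (nn M') - Real.log (nn M) ≤ nn (M - M') / 2 := by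
      have h4 := nn_sub_le M' M
      rw [hc] at h4
      rcases key (nn M') (nn M) (nn (M - M')) h2' h2 h4 with h | h
      · exact h
      · linarith
    have k3 : nn (M - M') / 2 ≤ m * (1 + H) * (D + 4) ^ (2 * m) * ε ^ s := by
      have : 2 * (m : ℝ) * ((1 + H) * ε ^ s) * (D + 4) ^ (2 * m) =
        2 * (m * (1 + H) * (D + 4) ^ (2 * m) * ε ^ s) := by ring
      rw [this] at c3
      linarith
    rw [abs_le]
    constructor <;> linarith
  have i1 : Integrable (fun z : T2 => Real.log (nn (Mm d m (ω, z)))) volume :=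
    Integrable.of_bound (((meas_nn hd m).comp measurable_prodMk_left).log).aestronglyMeasurable
      (Real.log 2 + m * (3 * Real.log |d.a|)) (Eventually.of_forall fun z => by
        obtain ⟨h1, h2⟩ := log_nn_bd hd m (ω, z)
        rw [Real.norm_eq_abs, abs_of_nonneg h1]
        exact h2)
  have i2 : Integrable (fun z : T2 => Real.log (nn (Mm d' m (ω', z)))) volume :=
    Integrable.of_bound (((meas_nn hd' m).comp measurable_prodMk_left).log).aestronglyMeasurable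
      (Real.log 2 + m * (3 * Real.log |d'.a|)) (Eventually.of_forall fun z => by
        obtain ⟨h1, h2⟩ := log_nn_bd hd' m (ω', z)
        rw [Real.norm_eq_abs, abs_of_nonneg h1]
        exact h2)
  unfold un
  rw [← integral_sub i1 i2]
  have h := norm_integral_le_of_norm_le_const (μ := (volume : Measure T2)) (f := fun z : T2 =>
    Real.log (nn (Mm d m (ω, z))) - Real.log (nn (Mm d' m (ω', z)))) (Eventually.of_forall fun z => hpt z)
  rw [probReal_univ, mul_one] at h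
  exact h

end Pool.Agent.Helper72.AP
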