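import Pool.Agent.Helper95.PF.Defs

/-!
# Random potentials, all parameters (MP_9ee088_an): further definitions for the final statement
-/

set_option autoImplicit false
open MeasureTheory Real Set Filter Topology
open scoped ENNReal

namespace Pool.Agent.Helper72.AP

open Pool.Agent.Helper95.PF

/-- Entropy condition: for every `n ≥ 1` the set `𝒢` is covered by `exp (R n ^ k)` balls of radius `exp (-n)`
centred in `𝒢`, for the distance of the first two derivatives. -/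
def Ent (R : ℝ) (k : ℕ) (𝒢 : Set (ℝ → ℝ)) : Prop := ∀ n : ℕ, 1 ≤ n → ∃ S : Finset (ℝ → ℝ),
  (↑S : Set (ℝ → ℝ)) ⊆ 𝒢 ∧ (S.card : ℝ) ≤ Real.exp (R * (n : ℝ) ^ k) ∧
  ∀ G ∈ 𝒢, ∃ F ∈ S, ∀ x, |deriv G x - deriv F x| ≤ Real.exp (-n) ∧
    |deriv (deriv G) x - deriv (deriv F) x| ≤ Real.exp (-n)

/-- Ball of real analytic one-periodic functions: Fourier coefficients at most `R exp (-j / R)`. -/
def Ana (R : ℝ) (G : ℝ → ℝ) : Prop := ∃ p q : ℕ → ℝ, (∀ j, |p j| ≤ R * Real.exp (-(j / R))) ∧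
  (∀ j, |q j| ≤ R * Real.exp (-(j / R))) ∧
  ∀ x, G x = ∑' j : ℕ, (p j * Real.cos (2 * π * j * x) + q j * Real.sin (2 * π * j * x))

end Pool.Agent.Helper72.AP
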