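import Pool.Agent.Helper72.AP.Defs
import Pool.Agent.Helper72.AP.FDefs
import Pool.Agent.Helper72.AP.Cont
import Pool.Agent.Helper95.PF.Main
import Pool.Agent.Helper18.AM.Dbl
import Pool.Agent.Helper18.AN.Mcd
import Pool.Agent.Helper18.AN.Upd
import Pool.Agent.Helper18.AN.Trunc
import Pool.Agent.Helper63.AP.InitW
import Pool.Agent.Helper68.AP.Ana
import Pool.Agent.Helper88.AP.NdE

/-! Blocks of project AP which are proved in the folders of other helpers, collected. -/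

set_option autoImplicit false
open MeasureTheory Real Set Filter Topology
open scoped ENNReal

namespace Pool.Agent.Helper72.AP

open Pool.Agent.Helper95.PV
open Pool.Agent.Helper95.PF
open Pool.Agent.Helper18.UC (T2 rep toT nn)
open Pool.Agent.Helper18.FD (NN rr pr cl uu lm Bump k1 k2)

/-! B2 (helper18) -/
theorem dblL {s : ℝ} (hs : 0 < s) (hs1 : s < 1) : ∃ β C : ℝ, 0 < β ∧ β < 1 ∧ 0 < C ∧
    ∀ d : Dat, d.Ok → d.s = s → ∀ (lo : ℕ) (L : Measure Om), IsProbabilityMeasure L →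
      (∀ i : Ix, lo ≤ i.1 → Rs L i) → ∀ m : ℕ, 2 ≤ m →
      2 * EmL L d m ≤ EmL L d (2 * m) + C * (m : ℝ) ^ β * (Lam d + Real.log (NN lo)) := Pool.Agent.Helper18.AM.dblL hs hs1

/-! B3 (helper99) -/
theorem mcd {L : Measure Om} (hL : IsProbabilityMeasure L) {S : Finset Ix} (hR : ∀ i ∈ S, Rs L i)
    {f : Om → ℝ} (hf : Measurable f) {K : ℝ} (hb : ∀ ω, |f ω| ≤ K) {c : Ix → ℝ}
    (hc : ∀ i ∈ S, ∀ ω u, |f (Function.update ω i u) - f ω| ≤ c i) {M t : ℝ} (ht : 0 ≤ t)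
    (hM : ∀ ω : Om, ∫ η : Om, f (fun i => if i ∈ S then η i else ω i) ∂PP ≤ M) :
    L {ω | M + t ≤ f ω} ≤ ENNReal.ofReal (Real.exp (-(t ^ 2 / (2 * ∑ i ∈ S, c i ^ 2)))) := Pool.Agent.Helper18.AN.mcd hL hR hf hb hc ht hM

/-! B4a (helper99) -/
theorem un_upd {d : Dat} (hd : d.Ok) (ω : Om) (l c : ℕ) (b : Bool) (u : ℝ) {m : ℕ} (hm : 1 ≤ m) :
    |un d (Function.update ω (l, c, b) u) m - un d ω m| ≤ 8 * (m : ℝ) ^ 2 * Real.log |d.a| / NN l := Pool.Agent.Helper18.AN.un_upd hd ω l c b u hm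

/-! B4b (helper99) -/
theorem trunc {χ : ℝ → ℝ} (hχ : Bump χ) {s : ℝ} (hs : 0 < s) (hs1 : s < 1) : ∃ C : ℝ, 1 ≤ C ∧
    ∀ (ω ω' : Om) (hi : ℕ), (∀ i : Ix, i.1 < hi → i.2.1 < NN i.1 → ω i = ω' i) → ∀ x,
      |h1 χ s ω x - h1 χ s ω' x| ≤ C * (NN hi : ℝ) ^ (-s) ∧ |h2 χ s ω x - h2 χ s ω' x| ≤ C * (NN hi : ℝ) ^ (-s) := Pool.Agent.Helper18.AN.trunc hχ hs hs1

/-! B7 -/
theorem initW {d : Dat} (hd : d.Ok) {B b : ℝ} (hB : 1 ≤ B) (hb : 0 < b) (hb1 : b ≤ 1) {ω : Om} (hn : Nw d ω B b)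
    {m : ℕ} (hm : (m : ℝ) ≤ |d.a| ^ (b / 8)) :
    m * (Hi d ω - (4 + 56 * B / b) * |d.a| ^ (-(b / 8))) ≤ un d ω m := Pool.Agent.Helper63.AP.initW hd hB hb hb1 hn hm

theorem jdW {d : Dat} (hd : d.Ok) {B b : ℝ} (hB : 1 ≤ B) (hb : 0 < b) (hb1 : b ≤ 1) {ω : Om} (hn : Nw d ω B b) :
    Jd d ω ≤ ENNReal.ofReal (2 / b * 4 ^ (b / 2) * (1 + B) * |d.a| ^ (-(b / 2))) := Pool.Agent.Helper63.AP.jdW hd hB hb hb1 hn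

theorem kdW {d : Dat} (hd : d.Ok) {B b : ℝ} {ω : Om} (hn : Nw d ω B b) :
    Kd d ω ≤ ENNReal.ofReal (B * |d.a| ^ (-(d.s / 4 * b))) := Pool.Agent.Helper63.AP.kdW hd hn

/-! B8 -/
theorem ndEvent {χ : ℝ → ℝ} (hχ : Bump χ) {s : ℝ} (hs : 0 < s) (hs1 : s < 1) {R : ℝ} (hR : 1 ≤ R) (k : ℕ) :
    ∃ b : ℝ, 0 < b ∧ b ≤ 1 ∧ ∀ γ : ℝ, 0 < γ → ∃ c A₁ : ℝ, 0 < c ∧ 1 ≤ A₁ ∧
      ∀ 𝒢 : Set Kk, (∀ g ∈ 𝒢, PotOk R s g.1 g.2) → Ent2 R k 𝒢 → ∀ A, A₁ ≤ A →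
        PP {ω | ∃ (κ : ℝ) (g : Kk) (δ : ℝ), 0 < κ ∧ κ ≤ 1 ∧ g ∈ 𝒢 ∧ NdC R κ g.2 ∧ 0 < δ ∧ δ ≤ A ^ (-γ) ∧
          ENNReal.ofReal (δ ^ b) < volume {x : ℝ | x ∈ Ico (0 : ℝ) 1 ∧ |g.2 x + κ * h2 χ s ω x| < δ}} ≤
          ENNReal.ofReal (Real.exp (-A ^ c)) :=
  Pool.Agent.Helper88.AP.ndEvent_of
    (fun _ hL _ hR _ hf _ hb _ hc _ _ ht hM => Pool.Agent.Helper18.AN.mcd hL hR hf hb hc ht hM)
    (fun _ h _ hs hs1 _ hg k d w l c b u => Pool.Agent.Helper18.AN.vol_upd h hs hs1 hg k d w l c b u) hχ hs hs1 hR k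

/-! B9 -/
theorem ana_pot {s : ℝ} (hs : 0 < s) (hs1 : s < 1) {R : ℝ} (hR : 1 ≤ R) : ∃ R' : ℝ, 1 ≤ R' ∧
    (∀ G, Ana R G → Pot s R' G) ∧ Ent R' 2 {G | Ana R G} := Pool.Agent.Helper68.AP.ana_pot hs hs1 hR

end Pool.Agent.Helper72.AP
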