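import Pool.Agent.Helper72.AP.Net

/-! Block AP-B10: with probability exponentially close to one the doubling inequality holds at time `n` for all data. -/

set_option autoImplicit false
open MeasureTheory Real Set Filter Topology
open scoped ENNReal

namespace Pool.Agent.Helper72.AP

open Pool.Agent.Helper95.PV
open Pool.Agent.Helper18.UC (T2 rep toT nn)
open Pool.Agent.Helper18.FD (NN rr pr cl uu lm Bump k1 k2)

theorem ff_cont {d d' : Dat} (hd : d.Ok) (hd' : d'.Ok) {D H s ε : ℝ} (hs : 0 < s) (hs1 : s ≤ 1) (hD : 1 ≤ D) (hH : 0 ≤ H)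
    (hε : 0 ≤ ε) (hε1 : ε ≤ 1) (ω ω' : Om) (b2 : ∀ x, |d.a * d.p2 ω x| ≤ D) (b2' : ∀ x, |d'.a * d'.p2 ω' x| ≤ D)
    (hh : ∀ x y, |d.a * d.p2 ω x - d.a * d.p2 ω y| ≤ H * |x - y| ^ s)
    (e1 : ∀ x, |d.a * d.p1 ω x - d'.a * d'.p1 ω' x| ≤ ε) (e2 : ∀ x, |d.a * d.p2 ω x - d'.a * d'.p2 ω' x| ≤ ε)
    (n : ℕ) : |ff d n ω - ff d' n ω'| ≤ 4 * n * (1 + H) * (D + 4) ^ (4 * n) * ε ^ s := by
  have h1 := un_cont hd hd' hs hs1 hD hH hε hε1 ω ω' b2 b2' hh e1 e2 n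
  have h2 := un_cont hd hd' hs hs1 hD hH hε hε1 ω ω' b2 b2' hh e1 e2 (2 * n)
  have hεs : 0 ≤ ε ^ s := Real.rpow_nonneg hε s
  unfold ff
  have e : 2 * un d ω n - un d ω (2 * n) - (2 * un d' ω' n - un d' ω' (2 * n)) =
      2 * (un d ω n - un d' ω' n) - (un d ω (2 * n) - un d' ω' (2 * n)) := by ring
  rw [e]
  have h3 := abs_sub (2 * (un d ω n - un d' ω' n)) (un d ω (2 * n) - un d' ω' (2 * n))
  rw [abs_mul, abs_two] at h3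
  have h4 : (D + 4) ^ (2 * n) ≤ (D + 4) ^ (4 * n) := pow_le_pow_right₀ (by linarith) (by omega)
  have h5 : 2 * (2 * n) = 4 * n := by ring
  rw [h5] at h2
  push_cast at h2
  have h6 : (n : ℝ) * (1 + H) * (D + 4) ^ (2 * n) * ε ^ s ≤ (n : ℝ) * (1 + H) * (D + 4) ^ (4 * n) * ε ^ s := by
    gcongr
  have h7 : 2 * (n : ℝ) * (1 + H) * (D + 4) ^ (4 * n) * ε ^ s = 2 * ((n : ℝ) * (1 + H) * (D + 4) ^ (4 * n) * ε ^ s) := by
    ring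
  have h8 : 4 * (n : ℝ) * (1 + H) * (D + 4) ^ (4 * n) * ε ^ s = 4 * ((n : ℝ) * (1 + H) * (D + 4) ^ (4 * n) * ε ^ s) := by
    ring
  rw [h7] at h2
  rw [h8]
  linarith

section Cst

variable {χ : ℝ → ℝ} {s R C : ℝ}

/-- two nearby data and noises -/
theorem ff_near (hχ : Bump χ) (hs : 0 < s) (hs1 : s < 1) (hR : 1 ≤ R) (hC : 1 ≤ C)
    (b1 : ∀ ω x, |h1 χ s ω x| ≤ C) (b2 : ∀ ω x, |h2 χ s ω x| ≤ C)
    (hh : ∀ ω x y, |h2 χ s ω x - h2 χ s ω y| ≤ C * |x - y| ^ s) {Y Q e : ℝ} (hY : 1 ≤ Y) (hQ : Q = 2 * (R + C))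
    (he : 0 ≤ e) (he1 : 2 * Y * Q * e ≤ 1) {a κ a' κ' : ℝ} {g g' : Kk} {ω ω' : Om}
    (hg : PotOk R s g.1 g.2) (hg' : PotOk R s g'.1 g'.2) (ha : 100 ≤ |a|) (haR : R + C ≤ |a|) (haY : |a| ≤ Y)
    (ha' : 100 ≤ |a'|) (haR' : R + C ≤ |a'|) (haY' : |a'| ≤ Y) (hκ : 0 < κ) (hκ1 : κ ≤ 1) (hκ' : 0 < κ') (hκ1' : κ' ≤ 1)
    (n1 : |a - a'| ≤ e)
    (n2 : ∀ x, |g.1 x - g'.1 x| + |κ * h1 χ s ω x - κ' * h1 χ s ω' x| ≤ 2 * C * e ∧
      |g.2 x - g'.2 x| + |κ * h2 χ s ω x - κ' * h2 χ s ω' x| ≤ 2 * C * e) (n : ℕ) :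
    |ff (dt s (R + C) χ a κ g) n ω - ff (dt s (R + C) χ a' κ' g') n ω'| ≤
      4 * n * (1 + Y * Q) * (Y * Q + 4) ^ (4 * n) * (2 * Y * Q * e) ^ s := by
  have hd : (dt s (R + C) χ a κ g).Ok := ok_of hs hs1 hχ hC b1 b2 hR ha haR hκ hκ1 hg
  have hd' : (dt s (R + C) χ a' κ' g').Ok := ok_of hs hs1 hχ hC b1 b2 hR ha' haR' hκ' hκ1' hg'
  have hRC : 2 ≤ R + C := by linarith
  have hQ4 : 4 ≤ Q := by rw [hQ]; linarith
  have hRQ : R + C ≤ Q := by rw [hQ]; linarith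
  have hY0 : 0 ≤ Y := by linarith
  have hD : 1 ≤ Y * Q := by nlinarith
  have hbd : ∀ (a κ : ℝ) (g : Kk) (ω : Om), (dt s (R + C) χ a κ g).Ok → |a| ≤ Y →
      ∀ x, |(dt s (R + C) χ a κ g).a * (dt s (R + C) χ a κ g).p2 ω x| ≤ Y * Q := by
    intro a κ g ω h h' x
    rw [abs_mul]
    have h2 : |(dt s (R + C) χ a κ g).p2 ω x| ≤ R + C := h.b2 ω x
    exact mul_le_mul h' (h2.trans hRQ) (abs_nonneg _) hY0
  have key : ∀ (P P' : ℝ), |P| ≤ R + C → |P - P'| ≤ 2 * C * e →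
      |a * P - a' * P'| ≤ 2 * Y * Q * e := by
    intro P P' hP hPP
    have e1 : a * P - a' * P' = (a - a') * P + a' * (P - P') := by ring
    rw [e1]
    refine (abs_add_le _ _).trans ?_
    rw [abs_mul, abs_mul]
    have g1 : |a - a'| * |P| ≤ e * (R + C) := mul_le_mul n1 hP (abs_nonneg _) he
    have g2 : |a'| * |P - P'| ≤ Y * (2 * C * e) := mul_le_mul haY' hPP (abs_nonneg _) hY0
    have g3 : e * (R + C) ≤ e * (Y * (R + C)) := by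
      refine mul_le_mul_of_nonneg_left ?_ he
      nlinarith
    have g4 : Y * (2 * C * e) ≤ 2 * (e * (Y * (R + C))) := by
      have : 0 ≤ e * (Y * R) := by positivity
      nlinarith
    have g5 : 2 * Y * Q * e = 4 * (e * (Y * (R + C))) := by rw [hQ]; ring
    have g6 : 0 ≤ e * (Y * (R + C)) := by positivity
    rw [g5]
    linarith
  refine ff_cont hd hd' hs hs1.le hD (by linarith) (by positivity) he1 ω ω' (hbd a κ g ω hd haY)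
    (hbd a' κ' g' ω' hd' haY') ?_ ?_ ?_ n
  · intro x y
    show |a * (g.2 x + κ * h2 χ s ω x) - a * (g.2 y + κ * h2 χ s ω y)| ≤ Y * Q * |x - y| ^ s
    have h0 : 0 ≤ |x - y| ^ s := Real.rpow_nonneg (abs_nonneg _) _
    have h3 := hg.hold x y
    have h4 := hh ω x y
    have h5 : |κ * (h2 χ s ω x - h2 χ s ω y)| ≤ C * |x - y| ^ s := by
      rw [abs_mul, abs_of_pos hκ]
      have := abs_nonneg (h2 χ s ω x - h2 χ s ω y)
      nlinarith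
    have h6 : a * (g.2 x + κ * h2 χ s ω x) - a * (g.2 y + κ * h2 χ s ω y) =
      a * ((g.2 x - g.2 y) + κ * (h2 χ s ω x - h2 χ s ω y)) := by ring
    rw [h6, abs_mul]
    have h7 := abs_add_le (g.2 x - g.2 y) (κ * (h2 χ s ω x - h2 χ s ω y))
    have h8 : |(g.2 x - g.2 y) + κ * (h2 χ s ω x - h2 χ s ω y)| ≤ Q * |x - y| ^ s := by
      have : (R + C) * |x - y| ^ s ≤ Q * |x - y| ^ s := mul_le_mul_of_nonneg_right hRQ h0
      linarith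
    rw [mul_assoc]
    exact mul_le_mul haY h8 (abs_nonneg _) hY0
  · intro x
    refine key (g.1 x + κ * h1 χ s ω x) (g'.1 x + κ' * h1 χ s ω' x) (hd.b1 ω x) ?_
    have h3 := (n2 x).1
    have h4 : g.1 x + κ * h1 χ s ω x - (g'.1 x + κ' * h1 χ s ω' x) =
      (g.1 x - g'.1 x) + (κ * h1 χ s ω x - κ' * h1 χ s ω' x) := by ring
    rw [h4]
    exact (abs_add_le _ _).trans h3
  · intro x
    refine key (g.2 x + κ * h2 χ s ω x) (g'.2 x + κ' * h2 χ s ω' x) (hd.b2 ω x) ?_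
    have h3 := (n2 x).2
    have h4 : g.2 x + κ * h2 χ s ω x - (g'.2 x + κ' * h2 χ s ω' x) =
      (g.2 x - g'.2 x) + (κ * h2 χ s ω x - κ' * h2 χ s ω' x) := by ring
    rw [h4]
    exact (abs_add_le _ _).trans h3

end Cst

/-- levels -/
theorem ex_lo {x : ℕ} (hx : 1 ≤ x) : ∃ lo : ℕ, (x : ℝ) ≤ NN lo ∧ (NN lo : ℝ) ≤ 8 * x := by
  refine ⟨Nat.log 2 x, ?_, ?_⟩
  · have h1 := Nat.lt_pow_succ_log_self (b := 2) (by norm_num) x
    have h2 : x ≤ NN (Nat.log 2 x) := by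
      unfold NN
      refine h1.le.trans (Nat.pow_le_pow_right (by norm_num) (by omega))
    exact_mod_cast h2
  · have h1 := Nat.pow_log_le_self 2 (show x ≠ 0 by omega)
    have h2 : NN (Nat.log 2 x) ≤ 8 * x := by
      unfold NN
      rw [pow_add]
      omega
    exact_mod_cast h2

theorem ex_hi (lo : ℕ) {s : ℝ} (hs : 0 < s) (X : ℝ) : ∃ hi : ℕ, lo < hi ∧ X ≤ (NN hi : ℝ) ^ s := by
  have h1 : Tendsto (fun hi : ℕ => (NN hi : ℝ) ^ s) atTop atTop := by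
    have h2 : Tendsto (fun hi : ℕ => (NN hi : ℝ)) atTop atTop := by
      refine tendsto_atTop_mono (fun hi => ?_) tendsto_natCast_atTop_atTop
      have : hi ≤ NN hi := by
        unfold NN
        exact (Nat.lt_two_pow_self (n := hi)).le.trans (Nat.pow_le_pow_right (by norm_num) (by omega))
      exact_mod_cast this
    exact (tendsto_rpow_atTop hs).comp h2
  obtain ⟨hi, h3, h4⟩ := ((eventually_gt_atTop lo).and (h1.eventually_ge_atTop X)).exists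
  exact ⟨hi, h3, h4⟩

/-- the number of net points against the probability of one -/
theorem count_num {γ R : ℝ} (hγ : 1 ≤ γ) (hR : 1 ≤ R) (k : ℕ) {n : ℕ} (hn : 6 + γ + R ≤ n) :
    (2 * ((n : ℝ) ^ γ * Real.exp ((n ^ 3 : ℕ) : ℝ) + 1)) * ((Real.exp ((n ^ 3 : ℕ) : ℝ) + 1) *
      Real.exp (R * (((n ^ 3 : ℕ) : ℝ)) ^ k)) * Real.exp (-(n : ℝ) ^ (3 * k + 5)) ≤ Real.exp (-n) := by
  push_cast
  obtain ⟨x, hx⟩ : ∃ x : ℝ, x = n := ⟨_, rfl⟩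
  rw [← hx] at hn ⊢
  have hx0 : 0 < x := by linarith
  have hx1 : 1 ≤ x := by linarith
  have hx8 : 8 ≤ x := by linarith
  have hlog : Real.log x ≤ x := by
    have := Real.log_le_sub_one_of_pos hx0
    linarith
  have hxγ : x ^ γ = Real.exp (γ * Real.log x) := by rw [Real.rpow_def_of_pos hx0, mul_comm]
  have hxγ1 : 1 ≤ x ^ γ := Real.one_le_rpow hx1 (by linarith)
  have he1 : 1 ≤ Real.exp (x ^ 3) := Real.one_le_exp (by positivity)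
  have h1 : 2 * (x ^ γ * Real.exp (x ^ 3) + 1) ≤ 4 * (x ^ γ * Real.exp (x ^ 3)) := by
    have : 1 ≤ x ^ γ * Real.exp (x ^ 3) := by nlinarith
    linarith
  have h2 : Real.exp (x ^ 3) + 1 ≤ 2 * Real.exp (x ^ 3) := by linarith
  have h8 : (8 : ℝ) ≤ Real.exp 3 := by
    have h2 : (2 : ℝ) ≤ Real.exp 1 := by
      have := Real.add_one_le_exp (1 : ℝ)
      linarith
    have h3 : Real.exp 3 = Real.exp 1 * Real.exp 1 * Real.exp 1 := by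
      rw [← Real.exp_add, ← Real.exp_add]; norm_num
    rw [h3]
    nlinarith [mul_nonneg (sub_nonneg.2 h2) (sub_nonneg.2 h2)]
  have h3 : (2 * (x ^ γ * Real.exp (x ^ 3) + 1)) * ((Real.exp (x ^ 3) + 1) * Real.exp (R * (x ^ 3) ^ k)) *
      Real.exp (-x ^ (3 * k + 5)) ≤ (4 * (x ^ γ * Real.exp (x ^ 3))) * ((2 * Real.exp (x ^ 3)) *
      Real.exp (R * (x ^ 3) ^ k)) * Real.exp (-x ^ (3 * k + 5)) := by
    gcongr
  refine h3.trans ?_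
  have h4 : (4 * (x ^ γ * Real.exp (x ^ 3))) * ((2 * Real.exp (x ^ 3)) *
      Real.exp (R * (x ^ 3) ^ k)) * Real.exp (-x ^ (3 * k + 5)) =
      8 * Real.exp (γ * Real.log x + x ^ 3 + x ^ 3 + R * (x ^ 3) ^ k + -x ^ (3 * k + 5)) := by
    rw [hxγ, Real.exp_add, Real.exp_add, Real.exp_add, Real.exp_add]
    ring
  rw [h4]
  refine (mul_le_mul_of_nonneg_right h8 (Real.exp_pos _).le).trans ?_
  rw [← Real.exp_add]
  refine Real.exp_le_exp.2 ?_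
  have e1 : (x ^ 3) ^ k = x ^ (3 * k) := by rw [← pow_mul]
  have e2 : x ^ (3 * k + 5) = x ^ (3 * k) * x ^ 3 * (x * x) := by ring
  rw [e1, e2]
  obtain ⟨Z, hZ⟩ : ∃ Z, Z = x ^ (3 * k) := ⟨_, rfl⟩
  have hZ1 : 1 ≤ Z := by rw [hZ]; exact one_le_pow₀ hx1
  rw [← hZ]
  obtain ⟨W, hW⟩ : ∃ W, W = x ^ 3 := ⟨_, rfl⟩
  have hW1 : x ≤ W := by rw [hW]; nlinarith [mul_nonneg hx0.le (show 0 ≤ x * x - 1 by nlinarith)]
  have hWW : 1 ≤ W := by linarith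
  rw [← hW]
  have g1 : γ * Real.log x ≤ γ * W := mul_le_mul_of_nonneg_left (hlog.trans hW1) (by linarith)
  have g2 : W ≤ Z * W := le_mul_of_one_le_left (by linarith) hZ1
  have g3 : R * Z ≤ R * (Z * W) := mul_le_mul_of_nonneg_left (le_mul_of_one_le_right (by linarith) hWW) (by linarith)
  have g4 : (6 + γ + R) * (Z * W) ≤ (x * x) * (Z * W) :=
    mul_le_mul_of_nonneg_right (hn.trans (by nlinarith)) (by positivity)
  have g5 : γ * W ≤ γ * (Z * W) := mul_le_mul_of_nonneg_left g2 (by linarith)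
  nlinarith

/-- the probability of one net point -/
theorem one_num {γ : ℝ} (hγ : 1 ≤ γ) (k : ℕ) {n : ℕ} (hn : 18432 * γ ^ 2 ≤ n) {a N : ℝ} (ha : 100 ≤ |a|)
    (haY : |a| ≤ (n : ℝ) ^ γ) (hN : (n : ℝ) ^ (3 * k + 12) ≤ N) :
    Real.exp (-(1 ^ 2 / (2 * (4 * (48 * (n : ℝ) ^ 2 * Real.log |a|) ^ 2 / N)))) ≤
      Real.exp (-(n : ℝ) ^ (3 * k + 5)) := by
  refine Real.exp_le_exp.2 (neg_le_neg ?_)
  obtain ⟨x, hx⟩ : ∃ x : ℝ, x = n := ⟨_, rfl⟩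
  rw [← hx] at hn haY hN ⊢
  have hγ2 : 1 ≤ γ ^ 2 := one_le_pow₀ hγ
  have hx1 : 1 ≤ x := by linarith
  have hx0 : 0 < x := by linarith
  have hlog : Real.log x ≤ x := by
    have := Real.log_le_sub_one_of_pos hx0
    linarith
  have hl0 : 0 < Real.log |a| := Real.log_pos (by linarith)
  have hla : Real.log |a| ≤ γ * x := by
    calc Real.log |a| ≤ Real.log (x ^ γ) := Real.log_le_log (by linarith) haY
      _ = γ * Real.log x := Real.log_rpow hx0 _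
      _ ≤ γ * x := mul_le_mul_of_nonneg_left hlog (by linarith)
  have hN0 : 0 < N := lt_of_lt_of_le (by positivity) hN
  have h1 : (48 * x ^ 2 * Real.log |a|) ^ 2 ≤ (48 * x ^ 2 * (γ * x)) ^ 2 := by
    gcongr
  have h2 : 2 * (4 * (48 * x ^ 2 * Real.log |a|) ^ 2 / N) ≤ 18432 * γ ^ 2 * x ^ 6 / x ^ (3 * k + 12) := by
    have e : 18432 * γ ^ 2 * x ^ 6 / x ^ (3 * k + 12) = 8 * (48 * x ^ 2 * (γ * x)) ^ 2 / x ^ (3 * k + 12) := by ring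
    have e2 : 2 * (4 * (48 * x ^ 2 * Real.log |a|) ^ 2 / N) = 8 * (48 * x ^ 2 * Real.log |a|) ^ 2 / N := by ring
    rw [e, e2]
    gcongr
  have h3 : 18432 * γ ^ 2 * x ^ 6 / x ^ (3 * k + 12) ≤ 1 / x ^ (3 * k + 5) := by
    rw [div_le_div_iff₀ (by positivity) (by positivity)]
    have e : x ^ (3 * k + 12) = x ^ (3 * k + 5) * x ^ 6 * x := by ring
    rw [e, one_mul]
    have h4 : 0 ≤ x ^ (3 * k + 5) * x ^ 6 := by positivity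
    calc 18432 * γ ^ 2 * x ^ 6 * x ^ (3 * k + 5) = (x ^ (3 * k + 5) * x ^ 6) * (18432 * γ ^ 2) := by ring
      _ ≤ (x ^ (3 * k + 5) * x ^ 6) * x := mul_le_mul_of_nonneg_left hn h4
  have h5 : 0 < 2 * (4 * (48 * x ^ 2 * Real.log |a|) ^ 2 / N) := by positivity
  rw [le_div_iff₀ h5, one_pow]
  calc x ^ (3 * k + 5) * (2 * (4 * (48 * x ^ 2 * Real.log |a|) ^ 2 / N)) ≤ x ^ (3 * k + 5) * (1 / x ^ (3 * k + 5)) :=
        mul_le_mul_of_nonneg_left (h2.trans h3) (by positivity)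
    _ = 1 := by field_simp

/-- the mean -/
theorem mean_num {γ θ β₀ C₀ : ℝ} (hγ : 1 ≤ γ) (hθ : 0 < θ) (hC₀ : 0 < C₀) (k : ℕ) {n : ℕ} (hn1 : 1 ≤ n)
    (hn : (C₀ * (5 + γ / θ + (3 * k + 12) / θ) + 2) ^ (1 / θ) ≤ n) {a κ N : ℝ} (ha : 100 ≤ |a|)
    (haY : |a| ≤ (n : ℝ) ^ γ) (hκ : Real.exp (-(n : ℝ) ^ θ) ≤ κ) (hN1 : 1 ≤ N) (hN : N ≤ 8 * (n : ℝ) ^ (3 * k + 12))
    (hβ₀ : 0 < β₀) :
    C₀ * (n : ℝ) ^ β₀ * ((1 + Real.log |a| + Real.log (1 / κ)) + Real.log N) + 2 ≤ (n : ℝ) ^ (β₀ + 2 * θ) := by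
  obtain ⟨x, hx⟩ : ∃ x : ℝ, x = n := ⟨_, rfl⟩
  have hx1 : 1 ≤ x := by rw [hx]; exact_mod_cast hn1
  rw [← hx] at hn haY hN hκ ⊢
  have hx0 : 0 < x := by linarith
  obtain ⟨K, hK⟩ : ∃ K, K = 5 + γ / θ + (3 * k + 12) / θ := ⟨_, rfl⟩
  rw [← hK] at hn
  have hK0 : 0 < K := by rw [hK]; positivity
  have hθ1 : 1 ≤ x ^ θ := Real.one_le_rpow hx1 hθ.le
  have hlog : Real.log x ≤ x ^ θ / θ := Real.log_le_rpow_div hx0.le hθ
  have h1 : Real.log |a| ≤ γ / θ * x ^ θ := by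
    calc Real.log |a| ≤ Real.log (x ^ γ) := Real.log_le_log (by linarith) haY
      _ = γ * Real.log x := Real.log_rpow hx0 _
      _ ≤ γ * (x ^ θ / θ) := mul_le_mul_of_nonneg_left hlog (by linarith)
      _ = γ / θ * x ^ θ := by ring
  have hκ0 : 0 < κ := (Real.exp_pos _).trans_le hκ
  have h2 : Real.log (1 / κ) ≤ x ^ θ := by
    rw [one_div, Real.log_inv]
    have h3 := Real.log_le_log (Real.exp_pos _) hκ
    rw [Real.log_exp] at h3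
    linarith
  have h3 : Real.log N ≤ 3 + (3 * k + 12) / θ * x ^ θ := by
    have h4 : Real.log N ≤ Real.log (8 * x ^ (3 * k + 12)) := Real.log_le_log (by linarith) hN
    rw [Real.log_mul (by norm_num) (by positivity), Real.log_pow] at h4
    have h5 : Real.log 8 ≤ 3 := by
      rw [show (8 : ℝ) = 2 ^ 3 by norm_num, Real.log_pow]
      have := Real.log_two_lt_d9
      push_cast
      linarith
    have h6 : ((3 * k + 12 : ℕ) : ℝ) * Real.log x ≤ ((3 * k + 12 : ℕ) : ℝ) * (x ^ θ / θ) :=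
      mul_le_mul_of_nonneg_left hlog (Nat.cast_nonneg _)
    push_cast at h4 h6
    have h7 : (3 * (k : ℝ) + 12) * (x ^ θ / θ) = (3 * k + 12) / θ * x ^ θ := by ring
    linarith
  have h4 : (1 + Real.log |a| + Real.log (1 / κ)) + Real.log N ≤ K * x ^ θ := by
    rw [hK]
    nlinarith
  have hxβ : 1 ≤ x ^ β₀ := Real.one_le_rpow hx1 hβ₀.le
  have h5 : C₀ * K + 2 ≤ x ^ θ := by
    have h0 : 0 ≤ C₀ * K + 2 := by positivity
    calc C₀ * K + 2 = ((C₀ * K + 2) ^ (1 / θ)) ^ θ := by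
          rw [← Real.rpow_mul h0, one_div, inv_mul_cancel₀ hθ.ne', Real.rpow_one]
      _ ≤ x ^ θ := Real.rpow_le_rpow (by positivity) hn hθ.le
  have e : x ^ (β₀ + 2 * θ) = x ^ β₀ * x ^ θ * x ^ θ := by
    rw [← Real.rpow_add hx0, ← Real.rpow_add hx0]
    congr 1
    ring
  rw [e]
  have h6 : C₀ * x ^ β₀ * ((1 + Real.log |a| + Real.log (1 / κ)) + Real.log N) ≤ C₀ * x ^ β₀ * (K * x ^ θ) :=
    mul_le_mul_of_nonneg_left h4 (by positivity)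
  have h7 : x ^ β₀ * x ^ θ * (C₀ * K + 2) ≤ x ^ β₀ * x ^ θ * x ^ θ :=
    mul_le_mul_of_nonneg_left h5 (by positivity)
  have h8 : 1 ≤ x ^ β₀ * x ^ θ := one_le_mul_of_one_le_of_one_le hxβ hθ1
  nlinarith

theorem dblEvent {χ : ℝ → ℝ} (hχ : Bump χ) {s : ℝ} (hs : 0 < s) (hs1 : s < 1) {R : ℝ} (hR : 1 ≤ R) (k : ℕ)
    {C : ℝ} (hC : 1 ≤ C) (b1 : ∀ ω x, |h1 χ s ω x| ≤ C) (b2 : ∀ ω x, |h2 χ s ω x| ≤ C)
    (hh : ∀ ω x y, |h2 χ s ω x - h2 χ s ω y| ≤ C * |x - y| ^ s) {γ : ℝ} (hγ : 1 ≤ γ) :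
    ∃ (β θ A₁ : ℝ) (N₀ : ℕ), 0 < β ∧ β < 1 ∧ 0 < θ ∧ 100 ≤ A₁ ∧ R + C ≤ A₁ ∧
      ∀ 𝒢 : Set Kk, (∀ g ∈ 𝒢, PotOk R s g.1 g.2) → Ent2 R k 𝒢 → ∀ n : ℕ, N₀ ≤ n →
        PP {ω | ∃ (a κ : ℝ) (g : Kk), A₁ ≤ |a| ∧ |a| ≤ (n : ℝ) ^ γ ∧ Real.exp (-(n : ℝ) ^ θ) ≤ κ ∧ κ ≤ 1 ∧ g ∈ 𝒢 ∧
          un (dt s (R + C) χ a κ g) ω (2 * n) + (n : ℝ) ^ β < 2 * un (dt s (R + C) χ a κ g) ω n} ≤
          ENNReal.ofReal (Real.exp (-n)) := by
  obtain ⟨β₀, C₀, hβ₀, hβ₀1, hC₀, hdbl⟩ := dblL hs hs1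
  obtain ⟨C₁, hC₁, htr⟩ := trunc hχ hs hs1
  obtain ⟨θ, hθ⟩ : ∃ θ, θ = (1 - β₀) / 4 := ⟨_, rfl⟩
  have hθ0 : 0 < θ := by rw [hθ]; linarith
  obtain ⟨Q, hQ⟩ : ∃ Q, Q = 2 * (R + C) := ⟨_, rfl⟩
  have hQ1 : 1 ≤ Q := by rw [hQ]; linarith
  obtain ⟨A₁, hA₁⟩ : ∃ A₁, A₁ = max 100 (R + C) := ⟨_, rfl⟩
  have hA₁1 : 100 ≤ A₁ := by rw [hA₁]; exact le_max_left _ _
  have hA₁2 : R + C ≤ A₁ := by rw [hA₁]; exact le_max_right _ _
  obtain ⟨N₀, hN₀⟩ : ∃ N₀ : ℕ, N₀ = ⌈2 * Q + 4⌉₊ + ⌈(10 + 6 * γ) / s⌉₊ + ⌈6 + γ + R⌉₊ + ⌈18432 * γ ^ 2⌉₊ +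
    ⌈(C₀ * (5 + γ / θ + (3 * k + 12) / θ) + 2) ^ (1 / θ)⌉₊ + 2 := ⟨_, rfl⟩
  refine ⟨β₀ + 2 * θ, θ, A₁, N₀, by linarith, by rw [hθ]; linarith, hθ0, hA₁1, hA₁2, ?_⟩
  intro 𝒢 hP hE n hn
  have hn0 : (2 : ℕ) ≤ n := by omega
  have q1 : 2 * Q + 4 ≤ n := (Nat.le_ceil _).trans (by exact_mod_cast (by omega : ⌈2 * Q + 4⌉₊ ≤ n))
  have q2 : (10 + 6 * γ) / s ≤ n := (Nat.le_ceil _).trans (by exact_mod_cast (by omega : ⌈(10 + 6 * γ) / s⌉₊ ≤ n))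
  have q3 : 6 + γ + R ≤ n := (Nat.le_ceil _).trans (by exact_mod_cast (by omega : ⌈6 + γ + R⌉₊ ≤ n))
  have q4 : 18432 * γ ^ 2 ≤ n := (Nat.le_ceil _).trans (by exact_mod_cast (by omega : ⌈18432 * γ ^ 2⌉₊ ≤ n))
  have q5 : (C₀ * (5 + γ / θ + (3 * k + 12) / θ) + 2) ^ (1 / θ) ≤ n := (Nat.le_ceil _).trans
    (by exact_mod_cast (by omega : ⌈(C₀ * (5 + γ / θ + (3 * k + 12) / θ) + 2) ^ (1 / θ)⌉₊ ≤ n))
  obtain ⟨Y, hY⟩ : ∃ Y, Y = (n : ℝ) ^ γ := ⟨_, rfl⟩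
  have hn1' : (1 : ℝ) ≤ n := by exact_mod_cast (by omega : 1 ≤ n)
  have hY1 : 1 ≤ Y := by rw [hY]; exact Real.one_le_rpow hn1' (by linarith)
  rcases lt_or_ge Y A₁ with hYA | hYA
  · refine le_trans (le_of_eq ?_) zero_le
    have : {ω | ∃ (a κ : ℝ) (g : Kk), A₁ ≤ |a| ∧ |a| ≤ (n : ℝ) ^ γ ∧ Real.exp (-(n : ℝ) ^ θ) ≤ κ ∧ κ ≤ 1 ∧ g ∈ 𝒢 ∧
          un (dt s (R + C) χ a κ g) ω (2 * n) + (n : ℝ) ^ (β₀ + 2 * θ) < 2 * un (dt s (R + C) χ a κ g) ω n} = ∅ := by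
      rw [Set.eq_empty_iff_forall_notMem]
      rintro ω ⟨a, κ, g, h1, h2, -⟩
      rw [← hY] at h2
      linarith
    rw [this, measure_empty]
  -- the levels
  obtain ⟨lo, hlo1, hlo2⟩ := ex_lo (x := n ^ (3 * k + 12)) (Nat.one_le_pow _ _ (by omega))
  push_cast at hlo1 hlo2
  obtain ⟨hi, hhi1, hhi2⟩ := ex_hi lo hs (C₁ * Real.exp ((n ^ 3 : ℕ) : ℝ))
  -- the net
  obtain ⟨T, hT1, hT2, hT3⟩ := net hE (show 0 ≤ A₁ by linarith) hYA (Real.exp_pos (-(n : ℝ) ^ θ)).le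
    (by rw [Real.exp_le_one_iff]; have : 0 ≤ (n : ℝ) ^ θ := by positivity
        linarith) (N := n ^ 3) (Nat.one_le_pow _ _ (by omega))
  obtain ⟨e, he⟩ : ∃ e, e = Real.exp (-((n ^ 3 : ℕ) : ℝ)) := ⟨_, rfl⟩
  have he0 : 0 < e := by rw [he]; exact Real.exp_pos _
  obtain ⟨r1, r2⟩ := err_small hγ hQ1 hs hs1 q1 q2
  have he' : Real.exp (-(n : ℝ) ^ 3) = e := by rw [he]; push_cast; rfl
  rw [he', ← hY] at r1 r2
  rw [← he] at hT3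
  -- the truncation
  have htr1 : C₁ * (NN hi : ℝ) ^ (-s) ≤ e := by
    have hNh : (0 : ℝ) < NN hi := Pool.Agent.Helper18.FD.NN_pos hi
    have h3 : 0 < (NN hi : ℝ) ^ s := by positivity
    rw [Real.rpow_neg hNh.le, ← div_eq_mul_inv, div_le_iff₀ h3, he, Real.exp_neg, inv_mul_eq_div,
      le_div_iff₀ (Real.exp_pos _)]
    exact hhi2
  -- the events
  have hsub : {ω | ∃ (a κ : ℝ) (g : Kk), A₁ ≤ |a| ∧ |a| ≤ (n : ℝ) ^ γ ∧ Real.exp (-(n : ℝ) ^ θ) ≤ κ ∧ κ ≤ 1 ∧ g ∈ 𝒢 ∧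
          un (dt s (R + C) χ a κ g) ω (2 * n) + (n : ℝ) ^ (β₀ + 2 * θ) < 2 * un (dt s (R + C) χ a κ g) ω n} ⊆
      ⋃ τ ∈ T, {ω | (n : ℝ) ^ (β₀ + 2 * θ) - 1 / 4 ≤ ff (dt s (R + C) χ τ.1 τ.2.1 τ.2.2) n ω} := by
    rintro ω ⟨a, κ, g, v1, v2, v3, v4, v5, v6⟩
    rw [← hY] at v2
    obtain ⟨τ, hτ, t1, t2, t3⟩ := hT3 a κ g v1 v2 v3 v4 v5
    obtain ⟨u1, u2, u3, u4, u5⟩ := hT1 τ hτ
    have hκ0 : 0 < κ := (Real.exp_pos _).trans_le v3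
    have hκ0' : 0 < τ.2.1 := (Real.exp_pos _).trans_le u3
    simp only [mem_iUnion]
    refine ⟨τ, hτ, ?_⟩
    have hnear := ff_near hχ hs hs1 hR hC b1 b2 hh (Y := Y) (Q := Q) (e := e) hY1 hQ he0.le r1 (a := a) (κ := κ)
      (a' := τ.1) (κ' := τ.2.1) (g := g) (g' := τ.2.2) (ω := ω) (ω' := ω) (hP g v5) (hP _ u5) (by linarith)
      (by linarith) v2 (by linarith) (by linarith) u2 hκ0 v4 hκ0' u4 t1 (by
        intro x
        have k1 : |κ * h1 χ s ω x - τ.2.1 * h1 χ s ω x| ≤ e * C := by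
          rw [← sub_mul, abs_mul]
          exact mul_le_mul t2 (b1 ω x) (abs_nonneg _) he0.le
        have k2 : |κ * h2 χ s ω x - τ.2.1 * h2 χ s ω x| ≤ e * C := by
          rw [← sub_mul, abs_mul]
          exact mul_le_mul t2 (b2 ω x) (abs_nonneg _) he0.le
        obtain ⟨k3, k4⟩ := t3 x
        have k5 : e ≤ e * C := le_mul_of_one_le_right he0.le hC
        constructor <;> linarith) n
    have h7 := (abs_le.1 (hnear.trans r2)).2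
    show (n : ℝ) ^ (β₀ + 2 * θ) - 1 / 4 ≤ ff (dt s (R + C) χ τ.1 τ.2.1 τ.2.2) n ω
    have h8 : (n : ℝ) ^ (β₀ + 2 * θ) < ff (dt s (R + C) χ a κ g) n ω := by
      unfold ff
      linarith
    linarith
  have hone : ∀ τ ∈ T, PP {ω | (n : ℝ) ^ (β₀ + 2 * θ) - 1 / 4 ≤ ff (dt s (R + C) χ τ.1 τ.2.1 τ.2.2) n ω} ≤
      ENNReal.ofReal (Real.exp (-(n : ℝ) ^ (3 * k + 5))) := by
    intro τ hτ
    obtain ⟨u1, u2, u3, u4, u5⟩ := hT1 τ hτ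
    have hκ0' : 0 < τ.2.1 := (Real.exp_pos _).trans_le u3
    have hd : (dt s (R + C) χ τ.1 τ.2.1 τ.2.2).Ok := ok_of hs hs1 hχ hC b1 b2 hR (by linarith) (by linarith)
      hκ0' u4 (hP _ u5)
    have hEr : ∀ ω ω' : Om, (∀ i : Ix, i.1 < hi → i.2.1 < NN i.1 → ω i = ω' i) →
        |ff (dt s (R + C) χ τ.1 τ.2.1 τ.2.2) n ω - ff (dt s (R + C) χ τ.1 τ.2.1 τ.2.2) n ω'| ≤ 1 / 4 := by
      intro ω ω' hωω
      refine (ff_near hχ hs hs1 hR hC b1 b2 hh (Y := Y) (Q := Q) (e := e) hY1 hQ he0.le r1 (hP _ u5) (hP _ u5)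
        (by linarith) (by linarith) u2 (by linarith) (by linarith) u2 hκ0' u4 hκ0' u4 (by simpa using he0.le) ?_ n).trans r2
      intro x
      obtain ⟨k1, k2⟩ := htr ω ω' hi hωω x
      have k3 : ∀ y z : ℝ, |y - z| ≤ e → |τ.2.1 * y - τ.2.1 * z| ≤ e := by
        intro y z hyz
        rw [← mul_sub, abs_mul, abs_of_pos hκ0']
        have := abs_nonneg (y - z)
        nlinarith
      have k4 := k3 _ _ (k1.trans htr1)
      have k5 := k3 _ _ (k2.trans htr1)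
      have k6 : e ≤ e * C := le_mul_of_one_le_right he0.le hC
      rw [sub_self, sub_self, abs_zero]
      constructor <;> linarith
    have hMe : ∀ ω : Om, 2 * EmL (Lc lo ω) (dt s (R + C) χ τ.1 τ.2.1 τ.2.2) n -
        EmL (Lc lo ω) (dt s (R + C) χ τ.1 τ.2.1 τ.2.2) (2 * n) ≤ (n : ℝ) ^ (β₀ + 2 * θ) - 2 := by
      intro ω
      have h1 := hdbl _ hd rfl lo (Lc lo ω) inferInstance (fun i hi => rs_Lc hi ω) n hn0
      have h2 := mean_num hγ hθ0 hC₀ k (by omega) q5 (show 100 ≤ |τ.1| by linarith) (by rw [← hY]; exact u2) u3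
        (show (1 : ℝ) ≤ NN lo by linarith [Pool.Agent.Helper18.FD.NN_ge lo]) hlo2 hβ₀
      have h3 : Lam (dt s (R + C) χ τ.1 τ.2.1 τ.2.2) = 1 + Real.log |τ.1| + Real.log (1 / τ.2.1) := rfl
      rw [h3] at h1
      linarith
    have h1 := single hd (n := n) (by omega) hhi1 (t := 1) (by norm_num) hEr hMe
    refine (measure_mono ?_).trans (h1.trans (ENNReal.ofReal_le_ofReal
      (one_num hγ k q4 (show 100 ≤ |τ.1| by linarith) (by rw [← hY]; exact u2) hlo1)))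
    intro ω hω
    change (n : ℝ) ^ (β₀ + 2 * θ) - 1 / 4 ≤ ff (dt s (R + C) χ τ.1 τ.2.1 τ.2.2) n ω at hω
    show (n : ℝ) ^ (β₀ + 2 * θ) - 2 + 1 / 4 + 1 ≤ ff (dt s (R + C) χ τ.1 τ.2.1 τ.2.2) n ω
    linarith
  refine (measure_mono hsub).trans ((measure_biUnion_finset_le _ _).trans ((Finset.sum_le_sum hone).trans ?_))
  rw [Finset.sum_const, nsmul_eq_mul, ← ENNReal.ofReal_natCast, ← ENNReal.ofReal_mul (Nat.cast_nonneg _)]
  refine ENNReal.ofReal_le_ofReal ?_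
  refine le_trans (mul_le_mul_of_nonneg_right hT2 (Real.exp_pos _).le) ?_
  rw [hY]
  exact count_num hγ hR k q3

end Pool.Agent.Helper72.AP
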