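import Pool.Agent.Helper72.AP.Main

/-! Measurable families of couplings and backgrounds: the exceptional set of parameters has an exponentially small tail. -/

set_option autoImplicit false
open MeasureTheory Real Set Filter Topology
open scoped ENNReal

namespace Pool.Agent.Helper72.AP

open Pool.Agent.Helper95.PV
open Pool.Agent.Helper95.PF
open Pool.Agent.Helper18.UC (T2 rep toT nn)
open Pool.Agent.Helper18.FD (NN rr pr cl uu lm Bump k1 k2)

/-- integrability of the stretched exponential -/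
theorem int_sexp {c : ℝ} (hc : 0 < c) : ∫⁻ a : ℝ, ENNReal.ofReal (Real.exp (-(|a| ^ c / 2))) ≠ ⊤ := by
  obtain ⟨m, hm⟩ : ∃ m : ℕ, 2 / c ≤ m := exists_nat_ge _
  have hmc : 2 ≤ c * m := by
    rw [div_le_iff₀ hc] at hm
    linarith
  -- `exp (-(t/2)) ≤ K (1 + |a|)^(-2)`
  obtain ⟨K, hK0, hK⟩ : ∃ K : ℝ, 0 ≤ K ∧ ∀ t : ℝ, 0 ≤ t → Real.exp (-(t / 2)) * t ^ m ≤ K := by
    refine ⟨2 ^ m * m.factorial, by positivity, fun t ht => ?_⟩
    have h1 := Real.pow_div_factorial_le_exp (t / 2) (by linarith) m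
    rw [div_le_iff₀ (by positivity), div_pow, div_le_iff₀ (by positivity)] at h1
    rw [Real.exp_neg, inv_mul_le_iff₀ (Real.exp_pos _)]
    calc t ^ m ≤ Real.exp (t / 2) * m.factorial * 2 ^ m := h1
      _ = Real.exp (t / 2) * (2 ^ m * m.factorial) := by ring
  have hb : ∀ a : ℝ, ENNReal.ofReal (Real.exp (-(|a| ^ c / 2))) ≤
      ENNReal.ofReal (4 * (K + 1)) * ENNReal.ofReal ((1 + ‖a‖) ^ (-(2 : ℝ))) := by
    intro a
    rw [← ENNReal.ofReal_mul (by positivity)]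
    refine ENNReal.ofReal_le_ofReal ?_
    rw [Real.norm_eq_abs]
    have ha : 0 ≤ |a| := abs_nonneg a
    have h2 : (1 + |a|) ^ (-(2 : ℝ)) = ((1 + |a|) ^ 2)⁻¹ := by
      rw [Real.rpow_neg (by linarith)]
      norm_cast
    rw [h2, ← div_eq_mul_inv, le_div_iff₀ (by positivity)]
    rcases le_total |a| 1 with h | h
    · have h3 : Real.exp (-(|a| ^ c / 2)) ≤ 1 := by
        rw [Real.exp_le_one_iff]
        have : 0 ≤ |a| ^ c := by positivity
        linarith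
      have h4 : (1 + |a|) ^ 2 ≤ 4 := by nlinarith
      have h5 := mul_le_mul h3 h4 (by positivity) (by norm_num)
      linarith
    · have h3 : (1 + |a|) ^ 2 ≤ 4 * |a| ^ 2 := by nlinarith
      have h4 : |a| ^ 2 ≤ (|a| ^ c) ^ m := by
        rw [← Real.rpow_natCast (|a| ^ c) m, ← Real.rpow_mul ha]
        have := Real.rpow_le_rpow_of_exponent_le h hmc
        norm_cast at this
      have h5 := hK (|a| ^ c) (by positivity)
      have h6 : 0 < Real.exp (-(|a| ^ c / 2)) := Real.exp_pos _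
      calc Real.exp (-(|a| ^ c / 2)) * (1 + |a|) ^ 2 ≤ Real.exp (-(|a| ^ c / 2)) * (4 * (|a| ^ c) ^ m) :=
            mul_le_mul_of_nonneg_left (by linarith) h6.le
        _ = 4 * (Real.exp (-(|a| ^ c / 2)) * (|a| ^ c) ^ m) := by ring
        _ ≤ 4 * (K + 1) := by linarith
  refine ne_top_of_le_ne_top ?_ (lintegral_mono hb)
  rw [lintegral_const_mul' _ _ ENNReal.ofReal_ne_top]
  refine ENNReal.mul_ne_top ENNReal.ofReal_ne_top (ne_of_lt ?_)
  refine finite_integral_one_add_norm ?_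
  rw [Module.finrank_self]
  norm_num

theorem bce {Ω : Type*} [MeasurableSpace Ω] {μ : Measure Ω} [IsFiniteMeasure μ] {c A : ℝ}
    (hc : 0 < c) {S : Set (ℝ × Ω)} (hS : MeasurableSet S) (hSA : ∀ r ∈ S, A ≤ |r.1|)
    (h : ∀ a, A ≤ |a| → μ {ω | (a, ω) ∈ S} ≤ ENNReal.ofReal (Real.exp (-|a| ^ c))) :
    ∀ᵐ ω ∂μ, ∃ r₀ : ℝ, ∀ r : ℝ, r₀ ≤ r →
      volume {a : ℝ | r ≤ |a| ∧ (a, ω) ∈ S} ≤ ENNReal.ofReal (Real.exp (-r ^ (c / 2))) := by
  classical
  have habs : Measurable fun r : ℝ × Ω => |r.1| := measurable_fst.abs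
  have hw : Measurable fun r : ℝ × Ω => ENNReal.ofReal (Real.exp (|r.1| ^ c / 2)) :=
    (((habs.pow_const _).div_const 2).exp).ennreal_ofReal
  let Φ : ℝ × Ω → ℝ≥0∞ := S.indicator fun r => ENNReal.ofReal (Real.exp (|r.1| ^ c / 2))
  have hΦ : Measurable Φ := hw.indicator hS
  have hint : ∀ a : ℝ, ∫⁻ ω, Φ (a, ω) ∂μ ≤ ENNReal.ofReal (Real.exp (-(|a| ^ c / 2))) := by
    intro a
    have hms : MeasurableSet {ω | (a, ω) ∈ S} := measurable_prodMk_left hS
    have h1 : ∀ ω, Φ (a, ω) = ({ω | (a, ω) ∈ S} : Set Ω).indicator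
        (fun _ => ENNReal.ofReal (Real.exp (|a| ^ c / 2))) ω := by
      intro ω
      by_cases hω : (a, ω) ∈ S
      · rw [Set.indicator_of_mem (show ω ∈ ({ω | (a, ω) ∈ S} : Set Ω) from hω)]
        exact Set.indicator_of_mem hω _
      · rw [Set.indicator_of_notMem (show ω ∉ ({ω | (a, ω) ∈ S} : Set Ω) from hω)]
        exact Set.indicator_of_notMem hω _
    rw [lintegral_congr h1, lintegral_indicator_const hms]
    by_cases ha : A ≤ |a|
    · refine (mul_le_mul_right (h a ha) _).trans ?_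
      rw [← ENNReal.ofReal_mul (Real.exp_pos _).le, ← Real.exp_add]
      refine ENNReal.ofReal_le_ofReal (Real.exp_le_exp.2 (le_of_eq ?_))
      ring
    · have : {ω | (a, ω) ∈ S} = ∅ := by
        rw [Set.eq_empty_iff_forall_notMem]
        intro ω hω
        exact ha (hSA _ hω)
      rw [this, measure_empty, mul_zero]
      exact zero_le
  have hfin : ∫⁻ ω, ∫⁻ a, Φ (a, ω) ∂volume ∂μ ≠ ⊤ := by
    have h1 : ∫⁻ ω, ∫⁻ a, Φ (a, ω) ∂volume ∂μ = ∫⁻ a, ∫⁻ ω, Φ (a, ω) ∂μ ∂volume :=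
      (lintegral_lintegral_swap (f := fun a ω => Φ (a, ω)) hΦ.aemeasurable).symm
    rw [h1]
    exact ne_top_of_le_ne_top (int_sexp hc) (lintegral_mono hint)
  have hZ' : ∀ᵐ ω ∂μ, ∫⁻ a, Φ (a, ω) ∂volume < ⊤ :=
    ae_lt_top (hΦ.comp measurable_swap).lintegral_prod_right' hfin
  filter_upwards [hZ'] with ω hω
  obtain ⟨K, hK0, hK⟩ : ∃ K : ℝ, 0 ≤ K ∧ ∫⁻ a, Φ (a, ω) ∂volume = ENNReal.ofReal K :=
    ⟨_, ENNReal.toReal_nonneg, (ENNReal.ofReal_toReal hω.ne).symm⟩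
  refine ⟨max 1 ((2 * (K + 2)) ^ (2 / c)), fun r hr => ?_⟩
  have hr1 : 1 ≤ r := (le_max_left _ _).trans hr
  have hr0 : 0 < r := by linarith
  have hr2 : (2 * (K + 2)) ^ (2 / c) ≤ r := (le_max_right _ _).trans hr
  have hm : MeasurableSet {a : ℝ | r ≤ |a| ∧ (a, ω) ∈ S} :=
    (measurableSet_le measurable_const measurable_id.abs).inter (measurable_prodMk_right hS)
  have h1 : ENNReal.ofReal (Real.exp (r ^ c / 2)) * volume {a : ℝ | r ≤ |a| ∧ (a, ω) ∈ S} ≤ ENNReal.ofReal K := by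
    rw [← hK, ← lintegral_indicator_const hm]
    refine lintegral_mono fun a => ?_
    by_cases ha : a ∈ {a : ℝ | r ≤ |a| ∧ (a, ω) ∈ S}
    · rw [Set.indicator_of_mem ha]
      change _ ≤ S.indicator _ _
      rw [Set.indicator_of_mem ha.2]
      refine ENNReal.ofReal_le_ofReal (Real.exp_le_exp.2 ?_)
      have := Real.rpow_le_rpow hr0.le ha.1 hc.le
      show r ^ c / 2 ≤ |a| ^ c / 2
      linarith
    · rw [Set.indicator_of_notMem ha]
      exact zero_le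
  have h2 : ENNReal.ofReal (Real.exp (-(r ^ c / 2))) * ENNReal.ofReal (Real.exp (r ^ c / 2)) = 1 := by
    rw [← ENNReal.ofReal_mul (Real.exp_pos _).le, ← Real.exp_add, neg_add_cancel, Real.exp_zero, ENNReal.ofReal_one]
  have h3 : volume {a : ℝ | r ≤ |a| ∧ (a, ω) ∈ S} ≤ ENNReal.ofReal (Real.exp (-(r ^ c / 2))) * ENNReal.ofReal K := by
    calc volume {a : ℝ | r ≤ |a| ∧ (a, ω) ∈ S}
        = ENNReal.ofReal (Real.exp (-(r ^ c / 2))) * (ENNReal.ofReal (Real.exp (r ^ c / 2)) *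
          volume {a : ℝ | r ≤ |a| ∧ (a, ω) ∈ S}) := by rw [← mul_assoc, h2, one_mul]
      _ ≤ _ := by gcongr
  refine h3.trans ?_
  rw [← ENNReal.ofReal_mul (Real.exp_pos _).le]
  refine ENNReal.ofReal_le_ofReal ?_
  -- `K exp (-(r^c)/2) ≤ exp (-r^(c/2))`
  have h4 : 2 * (K + 2) ≤ r ^ (c / 2) := by
    calc 2 * (K + 2) = ((2 * (K + 2)) ^ (2 / c)) ^ (c / 2) := by
          rw [← Real.rpow_mul (by positivity)]
          have : 2 / c * (c / 2) = 1 := by field_simp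
          rw [this, Real.rpow_one]
      _ ≤ r ^ (c / 2) := Real.rpow_le_rpow (by positivity) hr2 (by positivity)
  have h5 : r ^ c = r ^ (c / 2) * r ^ (c / 2) := by rw [← Real.rpow_add hr0]; congr 1; ring
  have h6 : K ≤ Real.exp K := by
    have := Real.add_one_le_exp K
    linarith
  calc Real.exp (-(r ^ c / 2)) * K ≤ Real.exp (-(r ^ c / 2)) * Real.exp K :=
        mul_le_mul_of_nonneg_left h6 (Real.exp_pos _).le
    _ = Real.exp (-(r ^ c / 2) + K) := (Real.exp_add _ _).symm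
    _ ≤ Real.exp (-r ^ (c / 2)) := by
        refine Real.exp_le_exp.2 ?_
        rw [h5]
        nlinarith

theorem fam2 {χ : ℝ → ℝ} (hχ : Bump χ) {s : ℝ} (hs : 0 < s) (hs1 : s < 1) {R : ℝ} (hR : 1 ≤ R) :
    ∃ c A : ℝ, 0 < c ∧ 100 ≤ A ∧ ∀ (κ : ℝ → ℝ) (g1 g2 : ℝ → ℝ → ℝ), Measurable κ →
      (Measurable fun r : ℝ × ℝ => g1 r.1 r.2) → (Measurable fun r : ℝ × ℝ => g2 r.1 r.2) →
      (∀ a, A ≤ |a| → Real.exp (-|a| ^ c) ≤ κ a ∧ κ a ≤ 1 ∧ PotOk R s (g1 a) (g2 a) ∧ NdC R (κ a) (g2 a)) →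
      ∀ᵐ ω ∂PP, ∃ Λ : Set ℝ, MeasurableSet Λ ∧
        (∃ r₀ : ℝ, ∀ r : ℝ, r₀ ≤ r → volume {a : ℝ | r ≤ |a| ∧ a ∉ Λ} ≤ ENNReal.ofReal (Real.exp (-r ^ c))) ∧
        ∀ a ∈ Λ, A ≤ |a| ∧
          Big c a (fun x => g1 a x + κ a * h1 χ s ω x) (fun x => g2 a x + κ a * h2 χ s ω x) := by
  obtain ⟨C, hC, hh⟩ := h_ok hχ hs hs1
  obtain ⟨c₁, c₃, A₁, hc₁, hc₃, hA₁, hA₁', hmain⟩ := main2z hχ hs hs1 hR 0 hC (fun ω x => (hh ω).2.2.2.2.2.2.2.1 x)
    (fun ω x => (hh ω).2.2.2.2.2.2.2.2.1 x) (fun ω => (hh ω).2.2.2.2.2.2.2.2.2.2.2)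
  obtain ⟨c₂, A₂, hc₂, hA₂, hbig⟩ := big_of_dt hχ hs hs1 hR hC hh hc₃
  obtain ⟨c, hc⟩ : ∃ c, c = min (c₁ / 2) c₂ := ⟨_, rfl⟩
  have hc0 : 0 < c := by rw [hc]; exact lt_min (by positivity) hc₂
  have hcc₁ : c ≤ c₁ / 2 := by rw [hc]; exact min_le_left _ _
  have hcc₂ : c ≤ c₂ := by rw [hc]; exact min_le_right _ _
  obtain ⟨A, hA⟩ : ∃ A, A = max A₁ A₂ := ⟨_, rfl⟩
  have hA1 : A₁ ≤ A := by rw [hA]; exact le_max_left _ _
  have hA2 : A₂ ≤ A := by rw [hA]; exact le_max_right _ _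
  have hA100 : 100 ≤ A := hA₁.trans hA1
  refine ⟨c, A, hc0, hA100, ?_⟩
  intro κ g1 g2 mκ m1 m2 h
  classical
  have hAabs : |A| = A := abs_of_pos (by linarith)
  -- the family
  obtain ⟨D, hD⟩ : ∃ D : ℝ → Dat, ∀ a, D a = if A ≤ |a| then dt s (R + C) χ a (κ a) (g1 a, g2 a) else
      dt s (R + C) χ A (κ A) (g1 A, g2 A) := ⟨_, fun _ => rfl⟩
  have hD1 : ∀ a, A ≤ |a| → D a = dt s (R + C) χ a (κ a) (g1 a, g2 a) := fun a ha => by rw [hD, if_pos ha]
  have hD2 : ∀ a, ¬ A ≤ |a| → D a = dt s (R + C) χ A (κ A) (g1 A, g2 A) := fun a ha => by rw [hD, if_neg ha]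
  have hokA : ∀ a, A ≤ |a| → (dt s (R + C) χ a (κ a) (g1 a, g2 a)).Ok := fun a ha =>
    ok_of hs hs1 hχ hC (fun ω x => (hh ω).2.2.2.2.2.2.2.1 x) (fun ω x => (hh ω).2.2.2.2.2.2.2.2.1 x) hR
      (by linarith) (by linarith) ((Real.exp_pos _).trans_le (h a ha).1) (h a ha).2.1 (h a ha).2.2.1
  have hset : MeasurableSet {a : ℝ | A ≤ |a|} := measurableSet_le measurable_const measurable_id.abs
  have hFam : Fam D := by
    refine ⟨?_, ?_, ?_, ?_, ?_, ?_, ?_⟩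
    · intro a
      by_cases ha : A ≤ |a|
      · rw [hD1 a ha]
        exact hokA a ha
      · rw [hD2 a ha]
        exact hokA A hAabs.ge
    · have k1 : ∀ a, (D a).χ = χ := by
        intro a
        by_cases ha : A ≤ |a|
        · rw [hD1 a ha]; rfl
        · rw [hD2 a ha]; rfl
      exact fun a b => (k1 a).trans (k1 b).symm
    · have k1 : ∀ a, (D a).s = s := by
        intro a
        by_cases ha : A ≤ |a|
        · rw [hD1 a ha]; rfl
        · rw [hD2 a ha]; rfl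
      exact fun a b => (k1 a).trans (k1 b).symm
    · have k1 : (fun a => (D a).a) = fun a => if A ≤ |a| then a else A := by
        funext a
        by_cases ha : A ≤ |a|
        · rw [hD1 a ha, if_pos ha]; rfl
        · rw [hD2 a ha, if_neg ha]; rfl
      rw [k1]
      exact Measurable.ite hset measurable_id measurable_const
    · have k1 : (fun a => (D a).κ) = fun a => if A ≤ |a| then κ a else κ A := by
        funext a
        by_cases ha : A ≤ |a|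
        · rw [hD1 a ha, if_pos ha]; rfl
        · rw [hD2 a ha, if_neg ha]; rfl
      rw [k1]
      exact Measurable.ite hset mκ measurable_const
    · have k1 : (fun r : ℝ × ℝ => (D r.1).g1 r.2) = fun r : ℝ × ℝ =>
          if A ≤ |r.1| then g1 r.1 r.2 else g1 A r.2 := by
        funext r
        by_cases hr : A ≤ |r.1|
        · rw [hD1 _ hr, if_pos hr]; rfl
        · rw [hD2 _ hr, if_neg hr]; rfl
      rw [k1]
      refine Measurable.ite (measurable_fst hset) m1 ?_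
      have k2 : Measurable fun r : ℝ × ℝ => (A, r.2) := by fun_prop
      exact m1.comp k2
    · have k1 : (fun r : ℝ × ℝ => (D r.1).g2 r.2) = fun r : ℝ × ℝ =>
          if A ≤ |r.1| then g2 r.1 r.2 else g2 A r.2 := by
        funext r
        by_cases hr : A ≤ |r.1|
        · rw [hD1 _ hr, if_pos hr]; rfl
        · rw [hD2 _ hr, if_neg hr]; rfl
      rw [k1]
      refine Measurable.ite (measurable_fst hset) m2 ?_
      have k2 : Measurable fun r : ℝ × ℝ => (A, r.2) := by fun_prop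
      exact m2.comp k2
  obtain ⟨z1, z2, z3, z4⟩ := par_meas hFam
  have z5 : Measurable fun r : ℝ × Om => ENNReal.ofReal (Hi (D r.1) r.2 - Lw (D r.1) r.2) :=
    (z2.sub z1).ennreal_ofReal
  have hZm : Measurable fun r : ℝ × Om => Zd (D r.1) r.2 := by
    unfold Zd
    exact (z5.add z3).add z4
  -- the bad set
  obtain ⟨S, hS⟩ : ∃ S : Set (ℝ × Om), S = {r | A ≤ |r.1| ∧ ENNReal.ofReal (|r.1| ^ (-c₃)) < Zd (D r.1) r.2} := ⟨_, rfl⟩
  have habs : Measurable fun r : ℝ × Om => |r.1| := measurable_fst.abs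
  have hSm : MeasurableSet S := by
    rw [hS]
    exact (measurableSet_le measurable_const habs).inter
      (measurableSet_lt (habs.pow_const _).ennreal_ofReal hZm)
  have hbc := bce (μ := PP) (c := c₁) (A := A) hc₁ hSm (fun r hr => by rw [hS] at hr; exact hr.1) (fun a ha => by
    obtain ⟨w1, w2, w3, w4⟩ := h a ha
    have hE : Ent2 R 0 {((g1 a, g2 a) : Kk)} := by
      intro n _
      refine ⟨{((g1 a, g2 a) : Kk)}, by simp, ?_, ?_⟩
      · rw [Finset.card_singleton, pow_zero, mul_one, Nat.cast_one]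
        exact Real.one_le_exp (by linarith)
      · rintro g hg
        rw [Set.mem_singleton_iff] at hg
        refine ⟨(g1 a, g2 a), Finset.mem_singleton_self _, fun x => ?_⟩
        rw [hg, sub_self, sub_self, abs_zero]
        exact ⟨(Real.exp_pos _).le, (Real.exp_pos _).le⟩
    refine le_trans (measure_mono ?_) (hmain {((g1 a, g2 a) : Kk)} (by
      intro g hg
      rw [Set.mem_singleton_iff] at hg
      rw [hg]
      exact w3) hE |a| (hA1.trans ha))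
    intro ω hω
    rw [hS] at hω
    obtain ⟨-, w5⟩ := hω
    rw [hD1 a ha] at w5
    refine ⟨a, κ a, (g1 a, g2 a), le_rfl, le_trans (Real.exp_le_exp.2 ?_) w1, w2, rfl, w4, not_le.2 w5⟩
    have := Real.rpow_le_rpow_of_exponent_le (show 1 ≤ |a| by linarith) (show c ≤ c₁ by linarith)
    linarith)
  filter_upwards [hbc] with ω hω
  refine ⟨{a : ℝ | A ≤ |a| ∧ (a, ω) ∉ S}, hset.inter (measurable_prodMk_right hSm).compl, ?_, ?_⟩
  · obtain ⟨r₀, hr₀⟩ := hω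
    refine ⟨max r₀ A, fun r hr => ?_⟩
    have hrA : A ≤ r := (le_max_right _ _).trans hr
    refine le_trans ((measure_mono ?_).trans (hr₀ r ((le_max_left _ _).trans hr)))
      (ENNReal.ofReal_le_ofReal (Real.exp_le_exp.2 ?_))
    · rintro a ⟨k1, k2⟩
      refine ⟨k1, ?_⟩
      by_contra k3
      exact k2 ⟨hrA.trans k1, k3⟩
    · have := Real.rpow_le_rpow_of_exponent_le (show 1 ≤ r by linarith) hcc₁
      linarith
  · rintro a ⟨haA, haS⟩
    obtain ⟨w1, w2, w3, w4⟩ := h a haA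
    have hZ : Zd (D a) ω ≤ ENNReal.ofReal (|a| ^ (-c₃)) := by
      by_contra k
      rw [not_le] at k
      exact haS (by rw [hS]; exact ⟨haA, k⟩)
    rw [hD1 a haA] at hZ
    exact ⟨haA, big_mono (by linarith) hcc₂ (hbig a (κ a) (g1 a, g2 a) (by linarith)
      ((Real.exp_pos _).trans_le w1) w2 w3 ω hZ)⟩

/-- measurable families, the final form -/
theorem fam3 {s : ℝ} (hs : 0 < s) (hs1 : s < 1) {χ : ℝ → ℝ} (hχ : ContDiff ℝ 3 χ)
    (hχ1 : ∀ t, |t| ≤ 1 / 2 → χ t = 1) (hχ0 : ∀ t, 1 ≤ |t| → χ t = 0) {R : ℝ} (hR : 1 ≤ R) :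
    ∃ c A : ℝ, 0 < c ∧ 0 < A ∧
      ∀ (κ : ℝ → ℝ) (G : ℝ → ℝ → ℝ), Measurable κ → (Measurable fun r : ℝ × ℝ => G r.1 r.2) →
        (∀ a, A ≤ |a| → Real.exp (-|a| ^ c) ≤ κ a ∧ κ a ≤ 1 ∧ Pot s R (G a) ∧
          (1 / R ≤ κ a ∨ Nondeg R (G a))) →
        ∀ᵐ ω ∂law, ∃ Λ : Set ℝ, MeasurableSet Λ ∧
          (∃ r₀ : ℝ, ∀ r : ℝ, r₀ ≤ r → volume {a : ℝ | r ≤ |a| ∧ a ∉ Λ} ≤ ENNReal.ofReal (Real.exp (-r ^ c))) ∧
          ∀ a ∈ Λ, Good c a (fun x => G a x + κ a * noise χ s ω x) := by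
  have hB : Bump χ := ⟨hχ, hχ1, hχ0⟩
  obtain ⟨c, A, hc, hA, h2⟩ := fam2 hB hs hs1 hR
  refine ⟨c, A, hc, by linarith, ?_⟩
  intro κ G mκ mG h
  classical
  obtain ⟨G', e1, e2⟩ : ∃ G' : ℝ → ℝ → ℝ, (∀ a, A ≤ |a| → G' a = G a) ∧
      ∀ a, ¬ A ≤ |a| → G' a = fun _ => 0 :=
    ⟨fun a => if A ≤ |a| then G a else fun _ => 0, fun a ha => if_pos ha, fun a ha => if_neg ha⟩
  have hset : MeasurableSet {a : ℝ | A ≤ |a|} := measurableSet_le measurable_const measurable_id.abs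
  have hsm : ∀ a, ContDiff ℝ 2 (G' a) := by
    intro a
    by_cases ha : A ≤ |a|
    · rw [e1 a ha]
      exact (h a ha).2.2.1.smooth
    · rw [e2 a ha]
      exact contDiff_const
  have hm : Measurable fun r : ℝ × ℝ => G' r.1 r.2 := by
    have h3 : (fun r : ℝ × ℝ => G' r.1 r.2) = fun r : ℝ × ℝ => if A ≤ |r.1| then G r.1 r.2 else 0 := by
      funext r
      by_cases hr : A ≤ |r.1|
      · rw [e1 _ hr, if_pos hr]
      · rw [e2 _ hr, if_neg hr]
    rw [h3]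
    exact Measurable.ite (measurable_fst hset) mG measurable_const
  obtain ⟨m1, m2⟩ := meas_fam hsm hm
  have h3 := h2 κ (fun a => deriv (G' a)) (fun a => deriv (deriv (G' a))) mκ m1 m2 (fun a ha => by
    obtain ⟨k1, k2, k3, k4⟩ := h a ha
    rw [e1 a ha]
    exact ⟨k1, k2, potOk k3, ndC k4⟩)
  rw [law_eq]
  filter_upwards [h3, ae_cube] with ω hω hc
  obtain ⟨Λ, hΛ1, hΛ2, hΛ3⟩ := hω
  refine ⟨Λ, hΛ1, hΛ2, fun a ha => ?_⟩
  obtain ⟨haA, hb⟩ := hΛ3 a ha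
  obtain ⟨k1, k2, k3, k4⟩ := h a haA
  rw [e1 a haA] at hb
  exact good_of hB hs hs1 ((Real.exp_pos _).le.trans k1) k2 k3 hc hb

end Pool.Agent.Helper72.AP
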