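import Pool.Agent.Helper72.AP.Fam

/-!
# Random potentials, all parameters (MP_9ee088_an): the final theorem
-/

set_option autoImplicit false
open MeasureTheory Real Set Filter Topology
open scoped ENNReal

namespace Pool.Agent.Helper72.AP

open Pool.Agent.Helper95.PF

/-- from exceptional events with exponentially small probability to almost every noise -/
theorem ae_of_exp {c A₀ : ℝ} (hc : 0 < c) {E : ℝ → Set (ℕ × ℕ × Bool → ℝ)}
    (h : ∀ A, A₀ ≤ A → law (E A) ≤ ENNReal.ofReal (Real.exp (-A ^ c))) :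
    ∀ᵐ ω ∂law, ∃ A : ℝ, A₀ ≤ A ∧ 1 ≤ A ∧ ω ∉ E A := by
  obtain ⟨N, hN⟩ : ∃ N : ℕ, max A₀ 1 ≤ N := exists_nat_ge _
  have hN1 : A₀ ≤ N := (le_max_left _ _).trans hN
  have hN2 : (1 : ℝ) ≤ N := (le_max_right _ _).trans hN
  rw [ae_iff]
  refine le_antisymm ?_ bot_le
  have h1 : ∀ n : ℕ, law {ω | ¬ ∃ A : ℝ, A₀ ≤ A ∧ 1 ≤ A ∧ ω ∉ E A} ≤ ENNReal.ofReal (Real.exp (-((N + n : ℕ) : ℝ) ^ c)) := by
    intro n
    have hn : (N : ℝ) ≤ ((N + n : ℕ) : ℝ) := by exact_mod_cast Nat.le_add_right _ _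
    refine (measure_mono ?_).trans (h ((N + n : ℕ) : ℝ) (hN1.trans hn))
    intro ω hω
    by_contra hcon
    exact hω ⟨_, hN1.trans hn, hN2.trans hn, hcon⟩
  have h2 : Tendsto (fun n : ℕ => ENNReal.ofReal (Real.exp (-((N + n : ℕ) : ℝ) ^ c))) atTop (𝓝 0) := by
    rw [← ENNReal.ofReal_zero]
    refine (ENNReal.continuous_ofReal.tendsto 0).comp ?_
    refine Real.tendsto_exp_atBot.comp (tendsto_neg_atTop_atBot.comp ?_)
    refine (tendsto_rpow_atTop hc).comp ?_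
    refine tendsto_atTop_mono (fun n => ?_) tendsto_natCast_atTop_atTop
    exact_mod_cast Nat.le_add_left _ _
  exact ge_of_tendsto' h2 h1

/-! ### monotonicity in the bound -/

theorem pot_mono {s R R' : ℝ} {V : ℝ → ℝ} (h : Pot s R V) (hR : R ≤ R') : Pot s R' V :=
  ⟨h.smooth, h.per, fun x => (h.d1 x).trans hR, fun x => (h.d2 x).trans hR, fun x y =>
    (h.hold x y).trans (mul_le_mul_of_nonneg_right hR (Real.rpow_nonneg (abs_nonneg _) _))⟩

theorem nondeg_mono {R R' : ℝ} {V : ℝ → ℝ} (hR1 : 1 ≤ R) (h : Nondeg R V) (hR : R ≤ R') : Nondeg R' V := by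
  intro δ hδ
  have hR0 : 0 < R := by linarith
  have hR0' : 0 < R' := by linarith
  rcases le_total δ 1 with h1 | h1
  · refine (h δ hδ).trans (ENNReal.ofReal_le_ofReal ?_)
    have h2 : δ ^ (1 / R) ≤ δ ^ (1 / R') :=
      Real.rpow_le_rpow_of_exponent_ge hδ h1 (one_div_le_one_div_of_le hR0 hR)
    exact mul_le_mul hR h2 (by positivity) hR0'.le
  · have h2 : volume {x : ℝ | x ∈ Icc (0 : ℝ) 1 ∧ |deriv (deriv V) x| ≤ δ} ≤ 1 := by
      refine (measure_mono (t := Icc (0:ℝ) 1) fun x hx => hx.1).trans ?_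
      rw [Real.volume_Icc]
      norm_num
    refine h2.trans ?_
    rw [← ENNReal.ofReal_one]
    refine ENNReal.ofReal_le_ofReal ?_
    have h3 : 1 ≤ δ ^ (1 / R') := Real.one_le_rpow h1 (by positivity)
    nlinarith

theorem ent_mono {R R' : ℝ} {k : ℕ} {𝒢 : Set (ℝ → ℝ)} (h : Ent R k 𝒢) (hR : R ≤ R') : Ent R' k 𝒢 := by
  intro n hn
  obtain ⟨S, h1, h2, h3⟩ := h n hn
  refine ⟨S, h1, h2.trans (Real.exp_le_exp.2 (mul_le_mul_of_nonneg_right hR (by positivity))), h3⟩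

theorem ana_mono {R R' : ℝ} {G : ℝ → ℝ} (hR1 : 1 ≤ R) (h : Ana R G) (hR : R ≤ R') : Ana R' G := by
  obtain ⟨p, q, h1, h2, h3⟩ := h
  have key : ∀ j : ℕ, R * Real.exp (-(j / R)) ≤ R' * Real.exp (-(j / R')) := by
    intro j
    refine mul_le_mul hR (Real.exp_le_exp.2 (neg_le_neg ?_)) (Real.exp_pos _).le (by linarith)
    exact div_le_div_of_nonneg_left (Nat.cast_nonneg j) (by linarith) hR
  exact ⟨p, q, fun j => (h1 j).trans (key j), fun j => (h2 j).trans (key j), h3⟩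

/-- the potential of the standard map is in the ball of analytic functions -/
theorem std_ana : Ana 40 fun x : ℝ => -(Real.cos (2 * π * x) / (2 * π)) := by
  refine ⟨fun j => if j = 1 then -(1 / (2 * π)) else 0, fun _ => 0, fun j => ?_, fun j => ?_, fun x => ?_⟩
  · by_cases hj : j = 1
    · subst hj
      simp only [if_true]
      have hp := Real.pi_gt_three
      have h1 : |-(1 / (2 * π))| ≤ 1 := by
        rw [abs_neg, abs_of_pos (by positivity), div_le_one (by positivity)]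
        linarith
      have h2 : (1 : ℝ) ≤ 40 * Real.exp (-(((1 : ℕ) : ℝ) / 40)) := by
        have := Real.add_one_le_exp (-(((1 : ℕ) : ℝ) / 40))
        push_cast at this ⊢
        linarith
      exact h1.trans h2
    · simp only [hj, if_false, abs_zero]
      positivity
  · simp only [abs_zero]
    positivity
  · rw [tsum_eq_single 1]
    · simp only [if_true, Nat.cast_one, mul_one, zero_mul, add_zero]
      ring
    · intro j hj
      simp [hj]

section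

variable {s : ℝ} {χ : ℝ → ℝ}

theorem noise_pot_ae (hs : 0 < s) (hs1 : s < 1) (hχ : ContDiff ℝ 3 χ)
    (hχ1 : ∀ t, |t| ≤ 1 / 2 → χ t = 1) (hχ0 : ∀ t, 1 ≤ |t| → χ t = 0) :
    ∃ C : ℝ, ∀ᵐ ω ∂law, Pot s C (noise χ s ω) := by
  obtain ⟨C, hC⟩ := noise_pot ⟨hχ, hχ1, hχ0⟩ hs hs1
  refine ⟨C, ?_⟩
  rw [law_eq]
  filter_upwards [ae_cube] with ω hω
  exact hC ω hω

/-- almost every noise, all analytic backgrounds, all couplings, all large parameters -/
theorem ana_ae (hs : 0 < s) (hs1 : s < 1) (hχ : ContDiff ℝ 3 χ)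
    (hχ1 : ∀ t, |t| ≤ 1 / 2 → χ t = 1) (hχ0 : ∀ t, 1 ≤ |t| → χ t = 0) :
    ∀ᵐ ω ∂law, ∀ R : ℝ, 1 ≤ R → ∃ c A : ℝ, 0 < c ∧ 0 < A ∧ ∀ (a κ : ℝ) (G : ℝ → ℝ), A ≤ |a| →
      Real.exp (-|a| ^ c) ≤ κ → κ ≤ 1 → Ana R G → (1 / R ≤ κ ∨ Nondeg R G) →
      Good c a (fun x => G x + κ * noise χ s ω x) := by
  have key : ∀ m : ℕ, ∀ᵐ ω ∂law, ∃ c A : ℝ, 0 < c ∧ 0 < A ∧ ∀ (a κ : ℝ) (G : ℝ → ℝ), A ≤ |a| →
      Real.exp (-|a| ^ c) ≤ κ → κ ≤ 1 → Ana ((m : ℝ) + 1) G → (1 / ((m : ℝ) + 1) ≤ κ ∨ Nondeg ((m : ℝ) + 1) G) →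
      Good c a (fun x => G x + κ * noise χ s ω x) := by
    intro m
    have hm : (1 : ℝ) ≤ (m : ℝ) + 1 := by
      have : (0 : ℝ) ≤ m := Nat.cast_nonneg m
      linarith
    obtain ⟨R₁, hR₁, hP, hE⟩ := ana_pot hs hs1 hm
    obtain ⟨R', hR'⟩ : ∃ R', R' = max R₁ ((m : ℝ) + 1) := ⟨_, rfl⟩
    have h1 : R₁ ≤ R' := by rw [hR']; exact le_max_left _ _
    have h2 : (m : ℝ) + 1 ≤ R' := by rw [hR']; exact le_max_right _ _
    obtain ⟨c, A₀, hc, hA₀, h⟩ := main3 hs hs1 hχ hχ1 hχ0 (hm.trans h2) 2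
    have h3 := h {G | Ana ((m : ℝ) + 1) G} (fun G hG => pot_mono (hP G hG) h1) (ent_mono hE h1)
    filter_upwards [ae_of_exp hc h3] with ω hω
    obtain ⟨A, hA, hA1, hn⟩ := hω
    refine ⟨c, A, hc, by linarith, ?_⟩
    intro a κ G ha hκ hκ1 hG hN
    by_contra hcon
    refine hn ⟨a, κ, G, ha, hκ, hκ1, hG, ?_, hcon⟩
    rcases hN with hN | hN
    · left
      exact (one_div_le_one_div_of_le (by linarith) h2).trans hN
    · right
      exact nondeg_mono hm hN h2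
  rw [← ae_all_iff] at key
  filter_upwards [key] with ω hω R hR
  obtain ⟨m, hm⟩ : ∃ m : ℕ, R ≤ m := exists_nat_ge _
  have hm1 : R ≤ (m : ℝ) + 1 := by linarith
  obtain ⟨c, A, hc, hA, h⟩ := hω m
  refine ⟨c, A, hc, hA, ?_⟩
  intro a κ G ha hκ hκ1 hG hN
  refine h a κ G ha hκ hκ1 (ana_mono hR hG hm1) ?_
  rcases hN with hN | hN
  · left
    exact (one_div_le_one_div_of_le (by linarith) hm1).trans hN
  · right
    exact nondeg_mono hR hN hm1

end

end Pool.Agent.Helper72.AP
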