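import Pool.Agent.Helper72.AP.Blk

/-! The law of the noise with the levels below `lo` frozen. -/

set_option autoImplicit false
open MeasureTheory Real Set Filter Topology
open scoped ENNReal

namespace Pool.Agent.Helper72.AP

open Pool.Agent.Helper95.PV
open Pool.Agent.Helper18.UC (T2 rep toT nn)
open Pool.Agent.Helper18.FD (NN rr pr cl uu lm Bump k1 k2)

theorem rs_PP (i : Ix) : Rs PP i := res_mp i

theorem meas_mx (lo : ℕ) (ω : Om) : Measurable (mx lo ω) := by
  rw [measurable_pi_iff]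
  intro i
  unfold mx
  by_cases h : lo ≤ i.1
  · simp only [h, if_true]
    exact measurable_pi_apply i
  · simp only [h, if_false]
    exact measurable_const

instance (lo : ℕ) (ω : Om) : IsProbabilityMeasure (Lc lo ω) :=
  Measure.isProbabilityMeasure_map (meas_mx lo ω).aemeasurable

theorem mx_upd {lo : ℕ} {i : Ix} (h : lo ≤ i.1) (ω η : Om) (u : ℝ) :
    Function.update (mx lo ω η) i u = mx lo ω (Function.update η i u) := by
  funext j
  by_cases hj : j = i
  · subst hj
    unfold mx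
    simp [h]
  · unfold mx
    simp [Function.update_of_ne hj]

theorem rs_Lc {lo : ℕ} {i : Ix} (h : lo ≤ i.1) (ω : Om) : Rs (Lc lo ω) i := by
  have h1 := rs_PP i
  have hm : Measurable fun q : Om × ℝ => Function.update q.1 i q.2 :=
    Pool.Agent.Helper18.PV.measurable_upd i
  have hx := meas_mx lo ω
  refine ⟨hm, ?_⟩
  have e1 : (Lc lo ω).prod uu = Measure.map (Prod.map (mx lo ω) id) (PP.prod uu) := by
    unfold Lc
    have := Measure.map_prod_map PP uu hx measurable_id
    rw [Measure.map_id] at this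
    exact this
  rw [e1, Measure.map_map hm (hx.prodMap measurable_id)]
  have e2 : (fun q : Om × ℝ => Function.update q.1 i q.2) ∘ Prod.map (mx lo ω) id =
      mx lo ω ∘ fun q : Om × ℝ => Function.update q.1 i q.2 := by
    funext q
    exact mx_upd h ω q.1 q.2
  rw [e2, ← Measure.map_map hx hm, h1.map_eq]
  rfl

theorem EmL_Lc {d : Dat} (hd : d.Ok) (lo : ℕ) (ω : Om) (m : ℕ) :
    EmL (Lc lo ω) d m = ∫ η, un d (mx lo ω η) m ∂PP := by
  have hp : IsProbabilityMeasure (volume : Measure T2) := inferInstance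
  have hi : Integrable (fun p : Pt => Real.log (nn (Mm d m p))) ((Lc lo ω).prod (volume : Measure T2)) :=
    Integrable.of_bound ((meas_nn hd m).log).aestronglyMeasurable
      (Real.log 2 + m * (3 * Real.log |d.a|)) (Eventually.of_forall fun p => by
        obtain ⟨h1, h2⟩ := log_nn_bd hd m p
        rw [Real.norm_eq_abs, abs_of_nonneg h1]
        exact h2)
  unfold EmL
  rw [integral_prod _ hi]
  have h1 : ∫ η, un d η m ∂(Lc lo ω) = ∫ η, un d (mx lo ω η) m ∂PP := by
    unfold Lc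
    exact integral_map (meas_mx lo ω).aemeasurable (meas_un hd m).aestronglyMeasurable
  exact h1

/-- the doubling defect -/
noncomputable def ff (d : Dat) (n : ℕ) (ω : Om) : ℝ := 2 * un d ω n - un d ω (2 * n)

theorem meas_ff {d : Dat} (hd : d.Ok) (n : ℕ) : Measurable (ff d n) :=
  ((meas_un hd n).const_mul 2).sub (meas_un hd (2 * n))

theorem ff_bd {d : Dat} (hd : d.Ok) (n : ℕ) : ∃ K : ℝ, ∀ ω, |ff d n ω| ≤ K := by
  refine ⟨2 * (Real.log 2 + n * (3 * Real.log |d.a|)) + (Real.log 2 + (2 * n : ℕ) * (3 * Real.log |d.a|)), fun ω => ?_⟩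
  obtain ⟨h1, h2⟩ := un_bd hd ω n
  obtain ⟨h3, h4⟩ := un_bd hd ω (2 * n)
  unfold ff
  rw [abs_le]
  constructor <;> linarith

theorem int_ff {d : Dat} (hd : d.Ok) (lo n : ℕ) (ω : Om) :
    ∫ η, ff d n (mx lo ω η) ∂PP = 2 * EmL (Lc lo ω) d n - EmL (Lc lo ω) d (2 * n) := by
  have hi : ∀ m, Integrable (fun η => un d (mx lo ω η) m) PP := by
    intro m
    refine Integrable.of_bound ((meas_un hd m).comp (meas_mx lo ω)).aestronglyMeasurable
      (Real.log 2 + m * (3 * Real.log |d.a|)) (Eventually.of_forall fun η => ?_)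
    obtain ⟨h1, h2⟩ := un_bd hd (mx lo ω η) m
    rw [Real.norm_eq_abs, abs_of_nonneg h1]
    exact h2
  unfold ff
  rw [integral_sub ((hi n).const_mul 2) (hi (2 * n)), integral_const_mul, EmL_Lc hd, EmL_Lc hd]

/-- influence of one coordinate -/
theorem ff_upd {d : Dat} (hd : d.Ok) (ω : Om) (l c : ℕ) (b : Bool) (u : ℝ) {n : ℕ} (hn : 1 ≤ n) :
    |ff d n (Function.update ω (l, c, b) u) - ff d n ω| ≤ 48 * (n : ℝ) ^ 2 * Real.log |d.a| / NN l := by
  have h1 := un_upd hd ω l c b u hn
  have h2 := un_upd hd ω l c b u (show 1 ≤ 2 * n by omega)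
  unfold ff
  have e : 2 * un d (Function.update ω (l, c, b) u) n - un d (Function.update ω (l, c, b) u) (2 * n) -
      (2 * un d ω n - un d ω (2 * n)) = 2 * (un d (Function.update ω (l, c, b) u) n - un d ω n) -
      (un d (Function.update ω (l, c, b) u) (2 * n) - un d ω (2 * n)) := by ring
  rw [e]
  have h3 := abs_sub (2 * (un d (Function.update ω (l, c, b) u) n - un d ω n))
    (un d (Function.update ω (l, c, b) u) (2 * n) - un d ω (2 * n))
  rw [abs_mul, abs_two] at h3
  push_cast at h2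
  have e2 : 48 * (n : ℝ) ^ 2 * Real.log |d.a| / NN l = 2 * (8 * (n : ℝ) ^ 2 * Real.log |d.a| / NN l) +
      8 * (2 * (n : ℝ)) ^ 2 * Real.log |d.a| / NN l := by ring
  rw [e2]
  linarith

/-- the resampled coordinates -/
def SS (lo hi : ℕ) : Finset Ix :=
  (Finset.Ico lo hi ×ˢ (Finset.range (NN hi) ×ˢ (Finset.univ : Finset Bool))).filter fun i => i.2.1 < NN i.1

theorem NN_mono {l l' : ℕ} (h : l ≤ l') : NN l ≤ NN l' := by
  unfold NN
  exact Nat.pow_le_pow_right (by norm_num) (by omega)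

theorem mem_SS {lo hi : ℕ} {i : Ix} : i ∈ SS lo hi ↔ lo ≤ i.1 ∧ i.1 < hi ∧ i.2.1 < NN i.1 := by
  unfold SS
  simp only [Finset.mem_filter, Finset.mem_product, Finset.mem_Ico, Finset.mem_range, Finset.mem_univ, and_true]
  constructor
  · rintro ⟨⟨⟨h1, h2⟩, -⟩, h4⟩
    exact ⟨h1, h2, h4⟩
  · rintro ⟨h1, h2, h3⟩
    exact ⟨⟨⟨h1, h2⟩, h3.trans_le (NN_mono h2.le)⟩, h3⟩

theorem sum_geo (lo hi : ℕ) : ∑ l ∈ Finset.Ico lo hi, (1 : ℝ) / NN l ≤ 2 / NN lo := by
  rcases le_or_gt hi lo with h | h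
  · rw [Finset.Ico_eq_empty (by omega), Finset.sum_empty]
    positivity
  · obtain ⟨k, rfl⟩ : ∃ k, hi = lo + k := ⟨hi - lo, by omega⟩
    rw [Finset.sum_Ico_eq_sum_range]
    have e : ∀ j, (1 : ℝ) / NN (lo + j) = 1 / NN lo * (1 / 2) ^ j := by
      intro j
      unfold NN
      push_cast
      rw [show lo + j + 3 = (lo + 3) + j by ring, pow_add, one_div_pow]
      field_simp
    simp only [e]
    rw [← Finset.mul_sum, show (2 : ℝ) / NN lo = 1 / NN lo * 2 by ring]
    refine mul_le_mul_of_nonneg_left ?_ (by positivity)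
    have h1 := (summable_geometric_two).sum_le_tsum (Finset.range (lo + k - lo)) (fun i _ => by positivity)
    rw [tsum_geometric_two] at h1
    exact h1

theorem sum_SS (lo hi : ℕ) (c : ℝ) :
    ∑ i ∈ SS lo hi, (c / (NN i.1 : ℝ)) ^ 2 ≤ 4 * c ^ 2 / NN lo := by
  unfold SS
  rw [Finset.sum_filter, Finset.sum_product]
  have h1 : ∀ l ∈ Finset.Ico lo hi, (∑ y ∈ Finset.range (NN hi) ×ˢ (Finset.univ : Finset Bool),
      if y.1 < NN l then (c / (NN l : ℝ)) ^ 2 else 0) ≤ 2 * c ^ 2 * (1 / NN l) := by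
    intro l hl
    rw [Finset.mem_Ico] at hl
    rw [Finset.sum_product]
    have h2 : ∀ x ∈ Finset.range (NN hi), (∑ _y : Bool, if x < NN l then (c / (NN l : ℝ)) ^ 2 else 0) =
        if x < NN l then 2 * (c / (NN l : ℝ)) ^ 2 else 0 := by
      intro x _
      rw [Finset.sum_const, Finset.card_univ, Fintype.card_bool]
      split_ifs <;> simp
    rw [Finset.sum_congr rfl h2, ← Finset.sum_filter, Finset.sum_const]
    have h3 : (Finset.filter (fun x => x < NN l) (Finset.range (NN hi))).card ≤ NN l := by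
      calc _ ≤ (Finset.range (NN l)).card := Finset.card_le_card (fun x hx => by
            rw [Finset.mem_filter] at hx
            exact Finset.mem_range.2 hx.2)
        _ = NN l := Finset.card_range _
    have hN : (0 : ℝ) < NN l := Pool.Agent.Helper18.FD.NN_pos l
    rw [nsmul_eq_mul]
    calc ((Finset.filter (fun x => x < NN l) (Finset.range (NN hi))).card : ℝ) * (2 * (c / (NN l : ℝ)) ^ 2) ≤
        (NN l : ℝ) * (2 * (c / (NN l : ℝ)) ^ 2) :=
          mul_le_mul_of_nonneg_right (by exact_mod_cast h3) (by positivity)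
      _ = 2 * c ^ 2 * (1 / NN l) := by field_simp
  refine (Finset.sum_le_sum h1).trans ?_
  rw [← Finset.mul_sum]
  calc 2 * c ^ 2 * ∑ l ∈ Finset.Ico lo hi, (1 : ℝ) / NN l ≤ 2 * c ^ 2 * (2 / NN lo) :=
        mul_le_mul_of_nonneg_left (sum_geo lo hi) (by positivity)
    _ = 4 * c ^ 2 / NN lo := by ring

/-- one datum -/
theorem single {d : Dat} (hd : d.Ok) {n : ℕ} (hn : 1 ≤ n) {lo hi : ℕ} (hlh : lo < hi) {E M t : ℝ} (ht : 0 ≤ t)
    (hE : ∀ ω ω' : Om, (∀ i : Ix, i.1 < hi → i.2.1 < NN i.1 → ω i = ω' i) → |ff d n ω - ff d n ω'| ≤ E)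
    (hM : ∀ ω : Om, 2 * EmL (Lc lo ω) d n - EmL (Lc lo ω) d (2 * n) ≤ M) :
    PP {ω | M + E + t ≤ ff d n ω} ≤
      ENNReal.ofReal (Real.exp (-(t ^ 2 / (2 * (4 * (48 * (n : ℝ) ^ 2 * Real.log |d.a|) ^ 2 / NN lo))))) := by
  obtain ⟨K, hK⟩ := ff_bd hd n
  obtain ⟨C, hC⟩ : ∃ C, C = 48 * (n : ℝ) ^ 2 * Real.log |d.a| := ⟨_, rfl⟩
  have hmean : ∀ ω : Om, ∫ η : Om, ff d n (fun i => if i ∈ SS lo hi then η i else ω i) ∂PP ≤ M + E := by
    intro ω
    have hm1 : Measurable fun η : Om => (fun i : Ix => if i ∈ SS lo hi then η i else ω i) := by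
      rw [measurable_pi_iff]
      intro i
      by_cases h : i ∈ SS lo hi
      · simp only [h, if_true]
        exact measurable_pi_apply i
      · simp only [h, if_false]
        exact measurable_const
    have i1 : Integrable (fun η : Om => ff d n (fun i => if i ∈ SS lo hi then η i else ω i)) PP :=
      Integrable.of_bound ((meas_ff hd n).comp hm1).aestronglyMeasurable K (Eventually.of_forall fun η => hK _)
    have i2 : Integrable (fun η : Om => ff d n (mx lo ω η)) PP :=
      Integrable.of_bound ((meas_ff hd n).comp (meas_mx lo ω)).aestronglyMeasurable K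
        (Eventually.of_forall fun η => hK _)
    have h1 : ∫ η : Om, ff d n (fun i => if i ∈ SS lo hi then η i else ω i) ∂PP ≤
        ∫ η : Om, (ff d n (mx lo ω η) + E) ∂PP := by
      refine integral_mono i1 (i2.add (integrable_const E)) fun η => ?_
      have h2 := hE (fun i => if i ∈ SS lo hi then η i else ω i) (mx lo ω η) (by
        intro i hi1 hi2
        unfold mx
        by_cases hl : lo ≤ i.1
        · rw [if_pos (mem_SS.2 ⟨hl, hi1, hi2⟩), if_pos hl]
        · rw [if_neg (fun h => hl (mem_SS.1 h).1), if_neg hl])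
      rw [abs_le] at h2
      show ff d n (fun i => if i ∈ SS lo hi then η i else ω i) ≤ ff d n (mx lo ω η) + E
      linarith [h2.2]
    rw [integral_add i2 (integrable_const E), integral_const, probReal_univ, one_smul, int_ff hd] at h1
    linarith [hM ω]
  have h := mcd (L := PP) inferInstance (S := SS lo hi) (fun i _ => rs_PP i) (meas_ff hd n) hK
    (c := fun i => C / NN i.1) (fun i _ ω u => by
      rw [hC]
      exact ff_upd hd ω i.1 i.2.1 i.2.2 u hn) ht hmean
  refine h.trans (ENNReal.ofReal_le_ofReal (Real.exp_le_exp.2 (neg_le_neg ?_)))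
  rw [← hC]
  have hs := sum_SS lo hi C
  have hC0 : 0 < C := by
    have h1 : 0 < Real.log |d.a| := Real.log_pos (by linarith [hd.ha])
    have h2 : (0 : ℝ) < n := by exact_mod_cast hn
    rw [hC]; positivity
  have hN0 : (0 : ℝ) < NN lo := Pool.Agent.Helper18.FD.NN_pos lo
  have h0 : 0 < ∑ i ∈ SS lo hi, (C / (NN i.1 : ℝ)) ^ 2 := by
    have hmem : ((lo, 0, false) : Ix) ∈ SS lo hi := mem_SS.2 ⟨le_rfl, hlh, by unfold NN; positivity⟩
    refine lt_of_lt_of_le ?_ (Finset.single_le_sum (fun i _ => sq_nonneg (C / (NN i.1 : ℝ))) hmem)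
    show 0 < (C / (NN lo : ℝ)) ^ 2
    positivity
  exact div_le_div_of_nonneg_left (sq_nonneg t) (by linarith) (by linarith)

end Pool.Agent.Helper72.AP
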