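import Pool.Agent.Helper72.AP.ZdW
import Pool.Agent.Helper72.AP.DblE

/-! Assembly of project AP. -/

set_option autoImplicit false
open MeasureTheory Real Set Filter Topology
open scoped ENNReal

namespace Pool.Agent.Helper72.AP

open Pool.Agent.Helper95.PV
open Pool.Agent.Helper95.PF
open Pool.Agent.Helper18.UC (T2 rep toT nn)
open Pool.Agent.Helper18.FD (NN rr pr cl uu lm Bump k1 k2)

theorem ent2_of {R : ℝ} {k : ℕ} {𝒢 : Set (ℝ → ℝ)} (h : Ent R k 𝒢) :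
    Ent2 R k ((fun G => (deriv G, deriv (deriv G))) '' 𝒢) := by
  classical
  intro n hn
  obtain ⟨S, h1, h2, h3⟩ := h n hn
  refine ⟨S.image fun G => (deriv G, deriv (deriv G)), ?_, ?_, ?_⟩
  · intro g hg
    rw [Finset.mem_coe, Finset.mem_image] at hg
    obtain ⟨G, hG, rfl⟩ := hg
    exact ⟨G, h1 hG, rfl⟩
  · refine le_trans ?_ h2
    exact_mod_cast Finset.card_image_le
  · rintro g ⟨G, hG, rfl⟩
    obtain ⟨F, hF, h4⟩ := h3 G hG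
    exact ⟨_, Finset.mem_image_of_mem _ hF, h4⟩

/-- tail of the exponential series -/
theorem tail_exp (m : ℕ) : ∑' n : ℕ, ENNReal.ofReal (Real.exp (-((m + n : ℕ) : ℝ))) ≤
    ENNReal.ofReal (2 * Real.exp (-(m : ℝ))) := by
  have h0 : Real.exp (-1) ≤ 1 / 2 := by
    rw [Real.exp_neg, ← one_div, one_div_le_one_div (Real.exp_pos _) (by norm_num)]
    have := Real.add_one_le_exp (1 : ℝ)
    linarith
  have hs : ∀ n : ℕ, Real.exp (-((m + n : ℕ) : ℝ)) ≤ Real.exp (-(m : ℝ)) * (1 / 2) ^ n := by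
    intro n
    push_cast
    rw [neg_add, Real.exp_add]
    refine mul_le_mul_of_nonneg_left ?_ (Real.exp_pos _).le
    have : Real.exp (-(n : ℝ)) = Real.exp (-1) ^ n := by
      rw [← Real.exp_nat_mul]
      congr 1
      ring
    rw [this]
    exact pow_le_pow_left₀ (Real.exp_pos _).le h0 n
  have hsum : Summable fun n : ℕ => Real.exp (-(m : ℝ)) * (1 / 2 : ℝ) ^ n := summable_geometric_two.mul_left _
  calc ∑' n : ℕ, ENNReal.ofReal (Real.exp (-((m + n : ℕ) : ℝ))) ≤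
        ∑' n : ℕ, ENNReal.ofReal (Real.exp (-(m : ℝ)) * (1 / 2) ^ n) :=
        ENNReal.tsum_le_tsum fun n => ENNReal.ofReal_le_ofReal (hs n)
    _ = ENNReal.ofReal (∑' n : ℕ, Real.exp (-(m : ℝ)) * (1 / 2) ^ n) :=
        (ENNReal.ofReal_tsum_of_nonneg (fun n => by positivity) hsum).symm
    _ = ENNReal.ofReal (2 * Real.exp (-(m : ℝ))) := by
        rw [tsum_mul_left, tsum_geometric_two, mul_comm]

theorem main2z {χ : ℝ → ℝ} (hχ : Bump χ) {s : ℝ} (hs : 0 < s) (hs1 : s < 1) {R : ℝ} (hR : 1 ≤ R) (k : ℕ)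
    {C : ℝ} (hC : 1 ≤ C) (hb1 : ∀ ω x, |h1 χ s ω x| ≤ C) (hb2 : ∀ ω x, |h2 χ s ω x| ≤ C)
    (hhol : ∀ ω x y, |h2 χ s ω x - h2 χ s ω y| ≤ C * |x - y| ^ s) :
    ∃ c c₃ A₀ : ℝ, 0 < c ∧ 0 < c₃ ∧ 100 ≤ A₀ ∧ R + C ≤ A₀ ∧ ∀ 𝒢 : Set Kk, (∀ g ∈ 𝒢, PotOk R s g.1 g.2) → Ent2 R k 𝒢 →
      ∀ A, A₀ ≤ A →
      PP {ω | ∃ (a κ : ℝ) (g : Kk), A ≤ |a| ∧ Real.exp (-|a| ^ c) ≤ κ ∧ κ ≤ 1 ∧ g ∈ 𝒢 ∧ NdC R κ g.2 ∧
        ¬ Zd (dt s (R + C) χ a κ g) ω ≤ ENNReal.ofReal (|a| ^ (-c₃))} ≤ ENNReal.ofReal (Real.exp (-A ^ c)) := by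
  obtain ⟨b, hb, hb1', hnd⟩ := ndEvent hχ hs hs1 hR k
  obtain ⟨γ, hγ⟩ : ∃ γ, γ = min (1 / 16) (s / 8) := ⟨_, rfl⟩
  have hγ0 : 0 < γ := by rw [hγ]; exact lt_min (by norm_num) (by positivity)
  obtain ⟨c₁, A₁, hc₁, hA₁, hE1⟩ := hnd γ hγ0
  have hb16 : (1 : ℝ) ≤ 16 / b := by
    rw [le_div_iff₀ hb]
    linarith
  obtain ⟨β, θ, A₂, N₀, hβ, hβ1, hθ, hA₂, hA₂', hE2⟩ := dblEvent hχ hs hs1 hR k hC hb1 hb2 hhol hb16
  obtain ⟨c₃, A₃, hc₃, hc₃1, hA₃, hz⟩ := zdW hs hs1 hb hb1' hβ hβ1 hθ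
  obtain ⟨c, hc⟩ : ∃ c, c = min c₃ (min (c₁ / 2) (b / 32)) := ⟨_, rfl⟩
  have hc0 : 0 < c := by
    rw [hc]
    exact lt_min hc₃ (lt_min (by positivity) (by positivity))
  have hcc₃ : c ≤ c₃ := by rw [hc]; exact min_le_left _ _
  have hcc₁ : 2 * c ≤ c₁ := by
    have : c ≤ c₁ / 2 := by rw [hc]; exact (min_le_right _ _).trans (min_le_left _ _)
    linarith
  have hcb : 2 * c ≤ b / 16 := by
    have : c ≤ b / 32 := by rw [hc]; exact (min_le_right _ _).trans (min_le_right _ _)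
    linarith
  obtain ⟨A₀, hA₀⟩ : ∃ A₀, A₀ = max (max (max A₁ A₂) A₃) (max ((N₀ : ℝ) ^ (16 / b)) (2 ^ (1 / c))) := ⟨_, rfl⟩
  have j1 : A₁ ≤ A₀ := by rw [hA₀]; exact (le_max_left _ _).trans ((le_max_left _ _).trans (le_max_left _ _))
  have j2 : A₂ ≤ A₀ := by rw [hA₀]; exact (le_max_right _ _).trans ((le_max_left _ _).trans (le_max_left _ _))
  have j3 : A₃ ≤ A₀ := by rw [hA₀]; exact (le_max_right _ _).trans (le_max_left _ _)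
  have j5 : (N₀ : ℝ) ^ (16 / b) ≤ A₀ := by rw [hA₀]; exact (le_max_left _ _).trans (le_max_right _ _)
  have j6 : (2 : ℝ) ^ (1 / c) ≤ A₀ := by rw [hA₀]; exact (le_max_right _ _).trans (le_max_right _ _)
  refine ⟨c, c₃, A₀, hc0, hc₃, by linarith, by linarith, ?_⟩
  intro 𝒢 hP hE A hA
  have hA1 : 1 ≤ A := by linarith
  have hA0 : 0 < A := by linarith
  -- the first time
  obtain ⟨m, hm⟩ : ∃ m, m = ⌈A ^ (b / 16)⌉₊ := ⟨_, rfl⟩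
  have hm1 : A ^ (b / 16) ≤ m := by rw [hm]; exact Nat.le_ceil _
  have hmN : N₀ ≤ m := by
    have h1 : (N₀ : ℝ) ≤ A ^ (b / 16) := by
      calc (N₀ : ℝ) = ((N₀ : ℝ) ^ (16 / b)) ^ (b / 16) := by
            rw [← Real.rpow_mul (Nat.cast_nonneg _)]
            have : 16 / b * (b / 16) = 1 := by field_simp
            rw [this, Real.rpow_one]
        _ ≤ A ^ (b / 16) := Real.rpow_le_rpow (by positivity) (j5.trans hA) (by positivity)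
    exact_mod_cast h1.trans hm1
  obtain ⟨B₁, hB₁⟩ : ∃ B₁ : Set Om, B₁ = {ω | ∃ (κ : ℝ) (g : Kk) (δ : ℝ), 0 < κ ∧ κ ≤ 1 ∧ g ∈ 𝒢 ∧ NdC R κ g.2 ∧
    0 < δ ∧ δ ≤ A ^ (-γ) ∧
    ENNReal.ofReal (δ ^ b) < volume {x : ℝ | x ∈ Ico (0 : ℝ) 1 ∧ |g.2 x + κ * h2 χ s ω x| < δ}} := ⟨_, rfl⟩
  obtain ⟨B₂, hB₂⟩ : ∃ B₂ : ℕ → Set Om, ∀ n, B₂ n = {ω | ∃ (a κ : ℝ) (g : Kk), A₂ ≤ |a| ∧ |a| ≤ (n : ℝ) ^ (16 / b) ∧
    Real.exp (-(n : ℝ) ^ θ) ≤ κ ∧ κ ≤ 1 ∧ g ∈ 𝒢 ∧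
    un (dt s (R + C) χ a κ g) ω (2 * n) + (n : ℝ) ^ β < 2 * un (dt s (R + C) χ a κ g) ω n} := ⟨_, fun _ => rfl⟩
  have hsub : {ω | ∃ (a κ : ℝ) (g : Kk), A ≤ |a| ∧ Real.exp (-|a| ^ c) ≤ κ ∧ κ ≤ 1 ∧ g ∈ 𝒢 ∧ NdC R κ g.2 ∧
        ¬ Zd (dt s (R + C) χ a κ g) ω ≤ ENNReal.ofReal (|a| ^ (-c₃))} ⊆
      B₁ ∪ ⋃ n : ℕ, B₂ (m + n) := by
    rintro ω ⟨a, κ, g, v1, v2, v3, v4, v5, v6⟩
    by_contra hcon
    rw [mem_union, not_or] at hcon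
    obtain ⟨n1, n2⟩ := hcon
    rw [hB₁] at n1
    have n3 : ∀ n : ℕ, m ≤ n → ω ∉ B₂ n := by
      intro n hn hω
      exact n2 (mem_iUnion.2 ⟨n - m, by rwa [Nat.add_sub_cancel' hn]⟩)
    refine v6 ?_
    have ha1 : 1 ≤ |a| := by linarith
    have ha0 : 0 < |a| := by linarith
    have hκ0 : 0 < κ := (Real.exp_pos _).trans_le v2
    have hd : (dt s (R + C) χ a κ g).Ok :=
      ok_of hs hs1 hχ hC hb1 hb2 hR (by linarith) (by linarith) hκ0 v3 (hP g v4)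
    have hN : Nw (dt s (R + C) χ a κ g) ω (|a| ^ (min (1 / 16) (s / 8) * b)) b := by
      rw [← hγ]
      intro δ hδ
      show volume {x : ℝ | x ∈ Ico (0 : ℝ) 1 ∧ |g.2 x + κ * h2 χ s ω x| < δ} ≤ _
      have hB : 1 ≤ |a| ^ (γ * b) := Real.one_le_rpow ha1 (by positivity)
      rcases le_or_gt δ (A ^ (-γ)) with h | h
      · by_contra h2
        rw [not_le] at h2
        refine n1 ⟨κ, g, δ, hκ0, v3, v4, v5, hδ, h, lt_of_le_of_lt (ENNReal.ofReal_le_ofReal ?_) h2⟩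
        exact le_mul_of_one_le_left (by positivity) hB
      · have h3 : volume {x : ℝ | x ∈ Ico (0 : ℝ) 1 ∧ |g.2 x + κ * h2 χ s ω x| < δ} ≤ 1 := by
          refine (measure_mono (t := Ico (0:ℝ) 1) fun x hx => hx.1).trans ?_
          rw [Real.volume_Ico]
          norm_num
        refine h3.trans ?_
        rw [← ENNReal.ofReal_one]
        refine ENNReal.ofReal_le_ofReal ?_
        have h4 : A ^ (-(γ * b)) ≤ δ ^ b := by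
          calc A ^ (-(γ * b)) = (A ^ (-γ)) ^ b := by
                rw [← Real.rpow_mul hA0.le]
                congr 1
                ring
            _ ≤ δ ^ b := Real.rpow_le_rpow (by positivity) h.le hb.le
        have h5 : A ^ (γ * b) ≤ |a| ^ (γ * b) := Real.rpow_le_rpow hA0.le v1 (by positivity)
        calc (1 : ℝ) = A ^ (γ * b) * A ^ (-(γ * b)) := by
              rw [← Real.rpow_add hA0, add_neg_cancel, Real.rpow_zero]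
          _ ≤ |a| ^ (γ * b) * δ ^ b := mul_le_mul h5 h4 (by positivity) (by positivity)
    have hpw : ∀ c' : ℝ, c ≤ c' → Real.exp (-|a| ^ c') ≤ κ := by
      intro c' hcc
      refine le_trans (Real.exp_le_exp.2 ?_) v2
      have := Real.rpow_le_rpow_of_exponent_le ha1 hcc
      linarith
    · refine hz (dt s (R + C) χ a κ g) hd rfl (show A₃ ≤ |a| by linarith) (hpw c₃ hcc₃) ω hN ?_
      intro n w1 w2
      change |a| ≤ (n : ℝ) ^ (16 / b) at w1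
      change Real.exp (-(n : ℝ) ^ θ) ≤ κ at w2
      have hnm : m ≤ n := by
        rw [hm, Nat.ceil_le]
        calc A ^ (b / 16) ≤ |a| ^ (b / 16) := Real.rpow_le_rpow hA0.le v1 (by positivity)
          _ ≤ ((n : ℝ) ^ (16 / b)) ^ (b / 16) := Real.rpow_le_rpow ha0.le w1 (by positivity)
          _ = n := by
            rw [← Real.rpow_mul (Nat.cast_nonneg _)]
            have : 16 / b * (b / 16) = 1 := by field_simp
            rw [this, Real.rpow_one]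
      have h3 := n3 n hnm
      rw [hB₂] at h3
      by_contra h4
      rw [not_le] at h4
      exact h3 ⟨a, κ, g, by linarith, w1, w2, v3, v4, h4⟩
  refine (measure_mono hsub).trans ((measure_union_le _ _).trans ?_)
  have p1 : PP B₁ ≤ ENNReal.ofReal (Real.exp (-A ^ c₁)) := by
    rw [hB₁]
    exact hE1 𝒢 hP hE A (j1.trans hA)
  have p2 : PP (⋃ n : ℕ, B₂ (m + n)) ≤ ENNReal.ofReal (2 * Real.exp (-(m : ℝ))) := by
    refine (measure_iUnion_le _).trans ((ENNReal.tsum_le_tsum fun n => ?_).trans (tail_exp m))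
    rw [hB₂]
    exact hE2 𝒢 hP hE (m + n) (by omega)
  refine (add_le_add p1 p2).trans ?_
  rw [← ENNReal.ofReal_add (Real.exp_pos _).le (by positivity)]
  refine ENNReal.ofReal_le_ofReal ?_
  have hAc : 2 ≤ A ^ c := by
    calc (2 : ℝ) = (2 ^ (1 / c)) ^ c := by
          rw [← Real.rpow_mul (by norm_num), one_div, inv_mul_cancel₀ hc0.ne', Real.rpow_one]
      _ ≤ A ^ c := Real.rpow_le_rpow (by positivity) (j6.trans hA) hc0.le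
  have h2c : A ^ (2 * c) = A ^ c * A ^ c := by rw [← Real.rpow_add hA0]; congr 1; ring
  have h2c' : A ^ c + 2 ≤ A ^ (2 * c) := by rw [h2c]; nlinarith
  have e1 : Real.exp (-A ^ c₁) ≤ Real.exp (-A ^ c - 2) := by
    refine Real.exp_le_exp.2 ?_
    have := Real.rpow_le_rpow_of_exponent_le hA1 hcc₁
    linarith
  have e2 : Real.exp (-(m : ℝ)) ≤ Real.exp (-A ^ c - 2) := by
    refine Real.exp_le_exp.2 ?_
    have := Real.rpow_le_rpow_of_exponent_le hA1 hcb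
    linarith
  have e3 : 3 * Real.exp (-A ^ c - 2) ≤ Real.exp (-A ^ c) := by
    have h3 : Real.exp (-A ^ c) = Real.exp 2 * Real.exp (-A ^ c - 2) := by
      rw [← Real.exp_add]; congr 1; ring
    rw [h3]
    refine mul_le_mul_of_nonneg_right ?_ (Real.exp_pos _).le
    have := Real.add_one_le_exp (2 : ℝ)
    linarith
  linarith

/-- the defect is small with large probability: from the defect to the component -/
theorem big_of_dt {χ : ℝ → ℝ} (hχ : Bump χ) {s : ℝ} (hs : 0 < s) (hs1 : s < 1) {R : ℝ} (hR : 1 ≤ R) {C : ℝ} (hC : 1 ≤ C)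
    (hh : ∀ ω, Continuous (h0 χ s ω) ∧ Continuous (h1 χ s ω) ∧ Continuous (h2 χ s ω) ∧
      (∀ x, h0 χ s ω (x + 1) = h0 χ s ω x) ∧ (∀ x, h1 χ s ω (x + 1) = h1 χ s ω x) ∧
      (∀ x, h2 χ s ω (x + 1) = h2 χ s ω x) ∧ (∀ x, |h0 χ s ω x| ≤ C) ∧ (∀ x, |h1 χ s ω x| ≤ C) ∧
      (∀ x, |h2 χ s ω x| ≤ C) ∧ (∀ x, HasDerivAt (h0 χ s ω) (h1 χ s ω x) x) ∧
      (∀ x, HasDerivAt (h1 χ s ω) (h2 χ s ω x) x) ∧ ∀ x y, |h2 χ s ω x - h2 χ s ω y| ≤ C * |x - y| ^ s)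
    {c₃ : ℝ} (hc₃ : 0 < c₃) :
    ∃ c A : ℝ, 0 < c ∧ 100 ≤ A ∧ ∀ (a κ : ℝ) (g : Kk), A ≤ |a| → 0 < κ → κ ≤ 1 → PotOk R s g.1 g.2 → ∀ ω,
      Zd (dt s (R + C) χ a κ g) ω ≤ ENNReal.ofReal (|a| ^ (-c₃)) →
      Big c a (fun x => g.1 x + κ * h1 χ s ω x) (fun x => g.2 x + κ * h2 χ s ω x) := by
  obtain ⟨c, A, hc, hA, hbig⟩ := big_of_zd hs hs1 (R := R + C) (by linarith) hc₃
  refine ⟨c, max A (R + C), hc, hA.trans (le_max_left _ _), ?_⟩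
  intro a κ g ha hκ hκ1 hg ω hZ
  have ha1 : A ≤ |a| := (le_max_left _ _).trans ha
  have ha2 : R + C ≤ |a| := (le_max_right _ _).trans ha
  have hd : (dt s (R + C) χ a κ g).Ok :=
    ok_of hs hs1 hχ hC (fun ω x => (hh ω).2.2.2.2.2.2.2.1 x) (fun ω x => (hh ω).2.2.2.2.2.2.2.2.1 x) hR
      (by linarith) ha2 hκ hκ1 hg
  obtain ⟨-, -, -, -, q2, q3, -, q5, q6, -, q8, q9⟩ := hh ω
  exact hbig (dt s (R + C) χ a κ g) hd rfl ha1 ω (pot_add hC hg hκ.le hκ1 q2 q3 q5 q6 q8 q9) hZ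

theorem main2 {χ : ℝ → ℝ} (hχ : Bump χ) {s : ℝ} (hs : 0 < s) (hs1 : s < 1) {R : ℝ} (hR : 1 ≤ R) (k : ℕ) :
    ∃ c A₀ : ℝ, 0 < c ∧ 0 < A₀ ∧ ∀ 𝒢 : Set Kk, (∀ g ∈ 𝒢, PotOk R s g.1 g.2) → Ent2 R k 𝒢 → ∀ A, A₀ ≤ A →
      PP {ω | ∃ (a κ : ℝ) (g : Kk), A ≤ |a| ∧ Real.exp (-|a| ^ c) ≤ κ ∧ κ ≤ 1 ∧ g ∈ 𝒢 ∧ NdC R κ g.2 ∧
        ¬ Big c a (fun x => g.1 x + κ * h1 χ s ω x) (fun x => g.2 x + κ * h2 χ s ω x)} ≤
        ENNReal.ofReal (Real.exp (-A ^ c)) := by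
  obtain ⟨C, hC, hh⟩ := h_ok hχ hs hs1
  obtain ⟨c₁, c₃, A₁, hc₁, hc₃, hA₁, hA₁', h⟩ := main2z hχ hs hs1 hR k hC (fun ω x => (hh ω).2.2.2.2.2.2.2.1 x)
    (fun ω x => (hh ω).2.2.2.2.2.2.2.2.1 x) (fun ω => (hh ω).2.2.2.2.2.2.2.2.2.2.2)
  obtain ⟨c₂, A₂, hc₂, hA₂, hbig⟩ := big_of_dt hχ hs hs1 hR hC hh hc₃
  refine ⟨min c₁ c₂, max A₁ A₂, lt_min hc₁ hc₂, lt_of_lt_of_le (by linarith) (le_max_left _ _), ?_⟩
  intro 𝒢 hP hE A hA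
  have hA1 : A₁ ≤ A := (le_max_left _ _).trans hA
  have hA2 : A₂ ≤ A := (le_max_right _ _).trans hA
  have hpw : ∀ x : ℝ, A ≤ x → x ^ (min c₁ c₂) ≤ x ^ c₁ := fun x hx =>
    Real.rpow_le_rpow_of_exponent_le (by linarith) (min_le_left _ _)
  refine (measure_mono ?_).trans ((h 𝒢 hP hE A hA1).trans (ENNReal.ofReal_le_ofReal (Real.exp_le_exp.2 ?_)))
  · rintro ω ⟨a, κ, g, v1, v2, v3, v4, v5, v6⟩
    have hκ0 : 0 < κ := (Real.exp_pos _).trans_le v2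
    refine ⟨a, κ, g, v1, le_trans (Real.exp_le_exp.2 ?_) v2, v3, v4, v5, fun hZ => v6 ?_⟩
    · have := hpw |a| v1
      linarith
    · exact big_mono (by linarith) (min_le_right _ _) (hbig a κ g (by linarith) hκ0 v3 (hP g v4) ω hZ)
  · have := hpw A le_rfl
    linarith

theorem main3 {s : ℝ} (hs : 0 < s) (hs1 : s < 1) {χ : ℝ → ℝ} (hχ : ContDiff ℝ 3 χ)
    (hχ1 : ∀ t, |t| ≤ 1 / 2 → χ t = 1) (hχ0 : ∀ t, 1 ≤ |t| → χ t = 0) {R : ℝ} (hR : 1 ≤ R) (k : ℕ) :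
    ∃ c A₀ : ℝ, 0 < c ∧ 0 < A₀ ∧ ∀ 𝒢 : Set (ℝ → ℝ), (∀ G ∈ 𝒢, Pot s R G) → Ent R k 𝒢 → ∀ A, A₀ ≤ A →
      law {ω | ∃ (a κ : ℝ) (G : ℝ → ℝ), A ≤ |a| ∧ Real.exp (-|a| ^ c) ≤ κ ∧ κ ≤ 1 ∧ G ∈ 𝒢 ∧
        (1 / R ≤ κ ∨ Nondeg R G) ∧ ¬ Good c a (fun x => G x + κ * noise χ s ω x)} ≤
        ENNReal.ofReal (Real.exp (-A ^ c)) := by
  have hB : Bump χ := ⟨hχ, hχ1, hχ0⟩
  obtain ⟨c, A₀, hc, hA₀, h⟩ := main2 hB hs hs1 hR k
  refine ⟨c, A₀, hc, hA₀, ?_⟩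
  intro 𝒢 hP hE A hA
  rw [law_eq]
  refine le_trans (measure_mono_ae ?_) (h ((fun G => (deriv G, deriv (deriv G))) '' 𝒢) ?_ (ent2_of hE) A hA)
  · filter_upwards [ae_cube] with ω hω
    rintro ⟨a, κ, G, v1, v2, v3, v4, v5, v6⟩
    refine ⟨a, κ, (deriv G, deriv (deriv G)), v1, v2, v3, ⟨G, v4, rfl⟩, ndC v5, fun hb => v6 ?_⟩
    exact good_of hB hs hs1 ((Real.exp_pos _).le.trans v2) v3 (hP G v4) hω hb
  · rintro g ⟨G, hG, rfl⟩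
    exact potOk (hP G hG)

end Pool.Agent.Helper72.AP
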