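import Pool.Agent.Helper72.AP.Blk

/-! Block AP-B11: a nondegenerate noise with the doubling inequality at all large times has a small defect. -/

set_option autoImplicit false
open MeasureTheory Real Set Filter Topology
open scoped ENNReal

namespace Pool.Agent.Helper72.AP

open Pool.Agent.Helper95.PV
open Pool.Agent.Helper18.UC (T2 rep toT nn)
open Pool.Agent.Helper18.FD (NN rr pr cl uu lm Bump k1 k2)

/-- the doubling recursion -/
theorem dbl_rec {u : ℕ → ℝ} {β L₀ : ℝ} (hβ1 : β < 1) {m₀ : ℕ} (hm : 2 ≤ m₀)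
    (h0 : m₀ * L₀ ≤ u m₀) (hd : ∀ m : ℕ, m₀ ≤ m → 2 * u m ≤ u (2 * m) + (m : ℝ) ^ β) (j : ℕ) :
    ((2 ^ j * m₀ : ℕ) : ℝ) * (L₀ - (m₀ : ℝ) ^ (β - 1) / (2 * (1 - (2 : ℝ) ^ (β - 1))) *
      (1 - ((2 : ℝ) ^ (β - 1)) ^ j)) ≤ u (2 ^ j * m₀) := by
  set q : ℝ := (2 : ℝ) ^ (β - 1) with hq
  have hq1 : q < 1 := Real.rpow_lt_one_of_one_lt_of_neg (by norm_num) (by linarith)
  have hq0 : 0 < 1 - q := by linarith
  have hm0 : (0 : ℝ) < m₀ := by
    have : (2 : ℝ) ≤ m₀ := by exact_mod_cast hm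
    linarith
  induction j with
  | zero =>
    simp only [pow_zero, one_mul, sub_self, mul_zero, sub_zero]
    exact h0
  | succ j ih =>
    have hN2 : m₀ ≤ 2 ^ j * m₀ := Nat.le_mul_of_pos_left _ (by positivity)
    have h1 := hd (2 ^ j * m₀) hN2
    have e1 : 2 * (2 ^ j * m₀) = 2 ^ (j + 1) * m₀ := by ring
    rw [e1] at h1
    have hNp : (0 : ℝ) < ((2 ^ j * m₀ : ℕ) : ℝ) := by positivity
    have e2 : ((2 ^ j * m₀ : ℕ) : ℝ) ^ β = ((2 ^ j * m₀ : ℕ) : ℝ) * ((m₀ : ℝ) ^ (β - 1) * q ^ j) := by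
      have e3 : ((2 ^ j * m₀ : ℕ) : ℝ) ^ (β - 1) = (m₀ : ℝ) ^ (β - 1) * q ^ j := by
        push_cast
        rw [Real.mul_rpow (by positivity) hm0.le, mul_comm]
        congr 1
        rw [hq, ← Real.rpow_natCast, ← Real.rpow_natCast, ← Real.rpow_mul (by norm_num),
          ← Real.rpow_mul (by norm_num), mul_comm]
      rw [← e3, Real.rpow_sub_one hNp.ne']
      field_simp
    rw [e2] at h1
    have e4 : ((2 ^ (j + 1) * m₀ : ℕ) : ℝ) = 2 * ((2 ^ j * m₀ : ℕ) : ℝ) := by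
      push_cast
      ring
    rw [e4]
    set Nj : ℝ := ((2 ^ j * m₀ : ℕ) : ℝ) with hNj
    have e5 : 2 * Nj * (L₀ - (m₀ : ℝ) ^ (β - 1) / (2 * (1 - q)) * (1 - q ^ (j + 1))) =
        2 * (Nj * (L₀ - (m₀ : ℝ) ^ (β - 1) / (2 * (1 - q)) * (1 - q ^ j))) -
          (Nj * ((m₀ : ℝ) ^ (β - 1) * q ^ j)) := by
      rw [pow_succ]
      field_simp
      ring
    rw [e5]
    linarith

/-- the exponent from the doubling inequality -/
theorem lw_ge {d : Dat} (hd : d.Ok) (ω : Om) {β L₀ : ℝ} (hβ1 : β < 1) {m₀ : ℕ} (hm : 2 ≤ m₀)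
    (h0 : m₀ * L₀ ≤ un d ω m₀) (hdb : ∀ m : ℕ, m₀ ≤ m → 2 * un d ω m ≤ un d ω (2 * m) + (m : ℝ) ^ β) :
    L₀ - (m₀ : ℝ) ^ (β - 1) / (2 * (1 - (2 : ℝ) ^ (β - 1))) ≤ Lw d ω := by
  have hq1 : (2 : ℝ) ^ (β - 1) < 1 := Real.rpow_lt_one_of_one_lt_of_neg (by norm_num) (by linarith)
  have hrec := dbl_rec (u := un d ω) hβ1 hm h0 hdb
  have hN : ∀ j : ℕ, (0 : ℝ) < ((2 ^ j * m₀ : ℕ) : ℝ) := by
    intro j
    have : 0 < 2 ^ j * m₀ := Nat.mul_pos (by positivity) (by omega)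
    exact_mod_cast this
  have ht : Tendsto (fun j : ℕ => 2 ^ j * m₀) atTop atTop := by
    refine tendsto_atTop_mono (fun j => ?_) tendsto_id
    calc j ≤ 2 ^ j := Nat.lt_two_pow_self.le
      _ ≤ 2 ^ j * m₀ := Nat.le_mul_of_pos_right _ (by omega)
  have hl := (Lw_tendsto hd ω).comp ht
  refine ge_of_tendsto' hl fun j => ?_
  show _ ≤ un d ω (2 ^ j * m₀) / ((2 ^ j * m₀ : ℕ) : ℝ)
  rw [le_div_iff₀ (hN j), mul_comm]
  refine le_trans (mul_le_mul_of_nonneg_left ?_ (hN j).le) (hrec j)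
  have h1 : 0 ≤ ((2 : ℝ) ^ (β - 1)) ^ j := by positivity
  have h2 : 0 ≤ (m₀ : ℝ) ^ (β - 1) / (2 * (1 - (2 : ℝ) ^ (β - 1))) :=
    div_nonneg (by positivity) (by linarith)
  nlinarith

theorem zdW {s : ℝ} (hs : 0 < s) (hs1 : s < 1) {b β θ : ℝ} (hb : 0 < b) (hb1 : b ≤ 1) (hβ : 0 < β) (hβ1 : β < 1)
    (hθ : 0 < θ) :
    ∃ c A : ℝ, 0 < c ∧ c ≤ 1 ∧ 100 ≤ A ∧ ∀ d : Dat, d.Ok → d.s = s → A ≤ |d.a| → Real.exp (-|d.a| ^ c) ≤ d.κ →
      ∀ ω : Om, Nw d ω (|d.a| ^ (min (1 / 16) (s / 8) * b)) b →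
      (∀ n : ℕ, |d.a| ≤ (n : ℝ) ^ (16 / b) → Real.exp (-(n : ℝ) ^ θ) ≤ d.κ →
        2 * un d ω n ≤ un d ω (2 * n) + (n : ℝ) ^ β) →
      Zd d ω ≤ ENNReal.ofReal (|d.a| ^ (-c)) := by
  obtain ⟨q, hq⟩ : ∃ q, q = (2 : ℝ) ^ (β - 1) := ⟨_, rfl⟩
  have hq1 : q < 1 := by rw [hq]; exact Real.rpow_lt_one_of_one_lt_of_neg (by norm_num) (by linarith)
  obtain ⟨c₁, hc₁⟩ : ∃ c₁, c₁ = (1 - β) * s * b / 16 := ⟨_, rfl⟩
  have hc₁0 : 0 < c₁ := by
    rw [hc₁]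
    have : 0 < (1 - β) * s * b := mul_pos (mul_pos (by linarith) hs) hb
    linarith
  have f0 : (1 - β) * s ≤ 1 := by nlinarith
  have f1 : c₁ ≤ b / 16 := by
    rw [hc₁]
    have := mul_le_mul_of_nonneg_right f0 hb.le
    linarith
  have f2 : c₁ ≤ (1 - β) * b / 16 := by
    rw [hc₁]
    have h1 : 0 ≤ (1 - β) * b := mul_nonneg (by linarith) hb.le
    have h2 : (1 - β) * s * b ≤ (1 - β) * b := by nlinarith
    linarith
  have f3 : c₁ ≤ s * b / 16 := by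
    rw [hc₁]
    have h1 : 0 ≤ s * b := mul_nonneg hs.le hb.le
    have h2 : (1 - β) * s * b ≤ s * b := by nlinarith
    linarith
  obtain ⟨K, hK⟩ : ∃ K, K = 4 + 56 / b + 1 / (2 * (1 - q)) + 8 / b + 1 := ⟨_, rfl⟩
  have hK0 : 0 < K := by
    rw [hK]
    have : 0 < 1 - q := by linarith
    positivity
  obtain ⟨c, hc⟩ : ∃ c, c = min (c₁ / 2) (b * θ / 16) := ⟨_, rfl⟩
  have hc0 : 0 < c := by rw [hc]; exact lt_min (by linarith) (by positivity)
  have hcc : c ≤ c₁ / 2 := by rw [hc]; exact min_le_left _ _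
  have hcθ : c ≤ b * θ / 16 := by rw [hc]; exact min_le_right _ _
  refine ⟨c, max 100 (max (K ^ (2 / c₁)) (2 ^ (16 / b))), hc0, by linarith, le_max_left _ _, ?_⟩
  intro d hd hds hA hκ ω hN hD
  obtain ⟨X, hX⟩ : ∃ X, X = |d.a| := ⟨_, rfl⟩
  have hA1 : 100 ≤ X := by rw [hX]; exact (le_max_left _ _).trans hA
  have hA2 : K ^ (2 / c₁) ≤ X := by rw [hX]; exact (le_max_left _ _).trans ((le_max_right _ _).trans hA)
  have hA3 : (2 : ℝ) ^ (16 / b) ≤ X := by rw [hX]; exact (le_max_right _ _).trans ((le_max_right _ _).trans hA)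
  have hX0 : 0 < X := by linarith
  have hX1 : 1 ≤ X := by linarith
  have hpow : ∀ x y : ℝ, x ≤ y → X ^ x ≤ X ^ y := fun x y h => Real.rpow_le_rpow_of_exponent_le hX1 h
  have hXK : K ≤ X ^ (c₁ / 2) := by
    calc K = (K ^ (2 / c₁)) ^ (c₁ / 2) := by
          rw [← Real.rpow_mul hK0.le]
          have : 2 / c₁ * (c₁ / 2) = 1 := by field_simp
          rw [this, Real.rpow_one]
      _ ≤ X ^ (c₁ / 2) := Real.rpow_le_rpow (by positivity) hA2 (by positivity)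
  have hX16 : 2 ≤ X ^ (b / 16) := by
    calc (2 : ℝ) = (2 ^ (16 / b)) ^ (b / 16) := by
          rw [← Real.rpow_mul (by norm_num)]
          have : 16 / b * (b / 16) = 1 := by field_simp
          rw [this, Real.rpow_one]
      _ ≤ X ^ (b / 16) := Real.rpow_le_rpow (by positivity) hA3 (by positivity)
  have hX8 : X ^ (b / 8) = X ^ (b / 16) * X ^ (b / 16) := by
    rw [← Real.rpow_add hX0]; congr 1; ring
  -- the constant of the nondegeneracy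
  obtain ⟨γ, hγ⟩ : ∃ γ, γ = min (1 / 16) (s / 8) := ⟨_, rfl⟩
  have hγ0 : 0 < γ := by rw [hγ]; exact lt_min (by norm_num) (by positivity)
  have hγ1 : γ ≤ 1 / 16 := by rw [hγ]; exact min_le_left _ _
  have hγ2 : γ ≤ s / 8 := by rw [hγ]; exact min_le_right _ _
  obtain ⟨B, hB⟩ : ∃ B, B = X ^ (γ * b) := ⟨_, rfl⟩
  rw [← hX, ← hγ, ← hB] at hN
  have hB1 : 1 ≤ B := by rw [hB]; exact Real.one_le_rpow hX1 (by positivity)
  have hB16 : B ≤ X ^ (b / 16) := by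
    rw [hB]
    refine hpow _ _ ?_
    nlinarith
  have hBs : B ≤ X ^ (s * b / 8) := by
    rw [hB]
    refine hpow _ _ ?_
    nlinarith
  -- the first time
  obtain ⟨m₀, hm₀⟩ : ∃ m₀, m₀ = ⌊X ^ (b / 8)⌋₊ := ⟨_, rfl⟩
  have hX84 : 4 ≤ X ^ (b / 8) := by rw [hX8]; nlinarith
  have hm2 : 2 ≤ m₀ := by
    rw [hm₀]
    exact Nat.le_floor (by push_cast; linarith)
  have hmle : (m₀ : ℝ) ≤ X ^ (b / 8) := by rw [hm₀]; exact Nat.floor_le (by positivity)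
  have hmge : X ^ (b / 16) ≤ m₀ := by
    have h1 := Nat.lt_floor_add_one (X ^ (b / 8))
    rw [← hm₀] at h1
    have h2 : X ^ (b / 16) + 1 ≤ X ^ (b / 8) := by rw [hX8]; nlinarith
    linarith
  have hi := initW hd hB1 hb hb1 hN (m := m₀) (by rw [← hX]; exact hmle)
  rw [← hX] at hi
  have hdb : ∀ m : ℕ, m₀ ≤ m → 2 * un d ω m ≤ un d ω (2 * m) + (m : ℝ) ^ β := by
    intro n hn
    have hn1 : X ^ (b / 16) ≤ n := hmge.trans (by exact_mod_cast hn)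
    refine hD n ?_ ?_
    · rw [← hX]
      calc X = (X ^ (b / 16)) ^ (16 / b) := by
            rw [← Real.rpow_mul hX0.le]
            have : b / 16 * (16 / b) = 1 := by field_simp
            rw [this, Real.rpow_one]
        _ ≤ (n : ℝ) ^ (16 / b) := Real.rpow_le_rpow (by positivity) hn1 (by positivity)
    · refine le_trans (Real.exp_le_exp.2 ?_) hκ
      rw [← hX]
      have h1 : X ^ c ≤ (n : ℝ) ^ θ := by
        calc X ^ c ≤ X ^ (b / 16 * θ) := hpow _ _ (by linarith)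
          _ = (X ^ (b / 16)) ^ θ := Real.rpow_mul hX0.le _ _
          _ ≤ (n : ℝ) ^ θ := Real.rpow_le_rpow (by positivity) hn1 hθ.le
      linarith
  have hlw := lw_ge hd ω hβ1 hm2 hi hdb
  rw [← hq] at hlw
  -- the three terms
  have p0 : 0 < X ^ (-c₁) := by positivity
  have t1 : Hi d ω - Lw d ω ≤ (4 + 56 / b + 1 / (2 * (1 - q))) * X ^ (-c₁) := by
    have h1 : (4 + 56 * B / b) * X ^ (-(b / 8)) ≤ (4 + 56 / b) * X ^ (-c₁) := by
      have h2 : X ^ (-(b / 8)) ≤ X ^ (-c₁) := hpow _ _ (by linarith)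
      have h3 : B * X ^ (-(b / 8)) ≤ X ^ (-c₁) := by
        calc B * X ^ (-(b / 8)) ≤ X ^ (b / 16) * X ^ (-(b / 8)) :=
              mul_le_mul_of_nonneg_right hB16 (by positivity)
          _ = X ^ (-(b / 16)) := by rw [← Real.rpow_add hX0]; congr 1; ring
          _ ≤ X ^ (-c₁) := hpow _ _ (by linarith)
      have h4 : (4 + 56 * B / b) * X ^ (-(b / 8)) = 4 * X ^ (-(b / 8)) + 56 / b * (B * X ^ (-(b / 8))) := by ring
      have h5 : 56 / b * (B * X ^ (-(b / 8))) ≤ 56 / b * X ^ (-c₁) := mul_le_mul_of_nonneg_left h3 (by positivity)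
      rw [h4]
      linarith
    have h6 : (m₀ : ℝ) ^ (β - 1) ≤ X ^ (-c₁) := by
      calc (m₀ : ℝ) ^ (β - 1) ≤ (X ^ (b / 16)) ^ (β - 1) :=
            Real.rpow_le_rpow_of_nonpos (by positivity) hmge (by linarith)
        _ = X ^ (b / 16 * (β - 1)) := (Real.rpow_mul hX0.le _ _).symm
        _ ≤ X ^ (-c₁) := hpow _ _ (by linarith)
    have h7 : (m₀ : ℝ) ^ (β - 1) / (2 * (1 - q)) ≤ 1 / (2 * (1 - q)) * X ^ (-c₁) := by
      have h8 : 0 ≤ 1 / (2 * (1 - q)) := by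
        have : 0 < 1 - q := by linarith
        positivity
      calc (m₀ : ℝ) ^ (β - 1) / (2 * (1 - q)) = 1 / (2 * (1 - q)) * (m₀ : ℝ) ^ (β - 1) := by ring
        _ ≤ _ := mul_le_mul_of_nonneg_left h6 h8
    have h9 : (4 + 56 / b + 1 / (2 * (1 - q))) * X ^ (-c₁) = (4 + 56 / b) * X ^ (-c₁) + 1 / (2 * (1 - q)) * X ^ (-c₁) := by
      ring
    rw [h9]
    linarith
  have t2 : Jd d ω ≤ ENNReal.ofReal (8 / b * X ^ (-c₁)) := by
    refine (jdW hd hB1 hb hb1 hN).trans (ENNReal.ofReal_le_ofReal ?_)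
    rw [← hX]
    have h1 : (4 : ℝ) ^ (b / 2) ≤ 2 := by
      calc (4 : ℝ) ^ (b / 2) ≤ 4 ^ (1 / 2 : ℝ) := Real.rpow_le_rpow_of_exponent_le (by norm_num) (by linarith)
        _ = 2 := by
          rw [← Real.sqrt_eq_rpow, show (4 : ℝ) = 2 ^ 2 by norm_num, Real.sqrt_sq (by norm_num)]
    have h2 : 1 + B ≤ 2 * X ^ (b / 16) := by linarith
    have h3 : 2 / b * 4 ^ (b / 2) * (1 + B) ≤ 2 / b * 2 * (2 * X ^ (b / 16)) := by
      refine mul_le_mul ?_ h2 (by linarith) (by positivity)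
      exact mul_le_mul_of_nonneg_left h1 (by positivity)
    have h4 : X ^ (b / 16) * X ^ (-(b / 2)) ≤ X ^ (-c₁) := by
      rw [← Real.rpow_add hX0]
      exact hpow _ _ (by linarith)
    calc 2 / b * 4 ^ (b / 2) * (1 + B) * X ^ (-(b / 2)) ≤ 2 / b * 2 * (2 * X ^ (b / 16)) * X ^ (-(b / 2)) :=
          mul_le_mul_of_nonneg_right h3 (by positivity)
      _ = 8 / b * (X ^ (b / 16) * X ^ (-(b / 2))) := by ring
      _ ≤ 8 / b * X ^ (-c₁) := mul_le_mul_of_nonneg_left h4 (by positivity)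
  have t3 : Kd d ω ≤ ENNReal.ofReal (1 * X ^ (-c₁)) := by
    refine (kdW hd hN).trans (ENNReal.ofReal_le_ofReal ?_)
    rw [← hX, hds, one_mul]
    calc B * X ^ (-(s / 4 * b)) ≤ X ^ (s * b / 8) * X ^ (-(s / 4 * b)) :=
          mul_le_mul_of_nonneg_right hBs (by positivity)
      _ = X ^ (-(s * b / 8)) := by rw [← Real.rpow_add hX0]; congr 1; ring
      _ ≤ X ^ (-c₁) := hpow _ _ (by nlinarith [mul_pos hs hb])
  have hq0 : 0 < 1 - q := by linarith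
  unfold Zd
  refine (add_le_add (add_le_add (ENNReal.ofReal_le_ofReal t1) t2) t3).trans ?_
  rw [← ENNReal.ofReal_add (by positivity) (by positivity), ← ENNReal.ofReal_add (by positivity) (by positivity)]
  refine ENNReal.ofReal_le_ofReal ?_
  rw [← hX]
  have e1 : (4 + 56 / b + 1 / (2 * (1 - q))) * X ^ (-c₁) + 8 / b * X ^ (-c₁) + 1 * X ^ (-c₁) = K * X ^ (-c₁) := by
    rw [hK]; ring
  rw [e1]
  calc K * X ^ (-c₁) ≤ X ^ (c₁ / 2) * X ^ (-c₁) := mul_le_mul_of_nonneg_right hXK p0.le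
    _ = X ^ (-(c₁ / 2)) := by rw [← Real.rpow_add hX0]; congr 1; ring
    _ ≤ X ^ (-c) := hpow _ _ (by linarith)

end Pool.Agent.Helper72.AP
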